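import Mathlib

open MeasureTheory Set

namespace Pool.Agent.X182.PD

/-- A density of a sublebesgue measure: a measurable `f` with values in `[0,1]` on `[0,1]`. -/
structure Adm (f : ℝ → ℝ) : Prop where
  meas : Measurable f
  mem : ∀ x ∈ Icc (0 : ℝ) 1, f x ∈ Icc (0 : ℝ) 1

/-- The factor of a letter: `f` for the letter `1` and `1 - f` for the letter `0`. -/
def fac (b : Bool) (y : ℝ) : ℝ := if b then y else 1 - y

/-- The ordered simplex `0 ≤ x_1 < ... < x_m ≤ 1`. -/
def simplex (m : ℕ) : Set (Fin m → ℝ) := {x | (∀ i, x i ∈ Icc (0 : ℝ) 1) ∧ StrictMono x}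

/-- The density `ρ_w(μ)` of the pattern `w` in `μ = f dx`. -/
noncomputable def dens (w : List Bool) (f : ℝ → ℝ) : ℝ :=
  (w.length.factorial : ℝ) * ∫ x in simplex w.length, ∏ i, fac (w.get i) (f (x i))

/-- The binary entropy `S(p) = -p log p - (1-p) log(1-p)`. -/
noncomputable def S (p : ℝ) : ℝ := -p * Real.log p - (1 - p) * Real.log (1 - p)

/-- `Ent(μ) = ∫₀¹ S(f(x)) dx`. -/
noncomputable def Ent (f : ℝ → ℝ) : ℝ := ∫ x in Icc (0 : ℝ) 1, S (f x)

/-- The feasibility set `E_W`. -/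
def feasible {k : ℕ} (W : Fin k → List Bool) : Set (Fin k → ℝ) :=
  {δ | ∃ f, Adm f ∧ ∀ i, dens (W i) f = δ i}

/-- The entropy function `s_W`. -/
noncomputable def entFn {k : ℕ} (W : Fin k → List Bool) (δ : Fin k → ℝ) : ℝ :=
  sSup {e | ∃ f, Adm f ∧ (∀ i, dens (W i) f = δ i) ∧ e = Ent f}

lemma simplex3 (x : Fin 3 → ℝ) : x ∈ simplex 3 ↔ x 1 ∈ Icc (0:ℝ) 1 ∧ x 0 ∈ Ico 0 (x 1) ∧ x 2 ∈ Ioc (x 1) 1 := by
  constructor
  · rintro ⟨h1, h2⟩
    have h01 : x 0 < x 1 := h2 (by decide)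
    have h12 : x 1 < x 2 := h2 (by decide)
    exact ⟨h1 1, ⟨(h1 0).1, h01⟩, ⟨h12, (h1 2).2⟩⟩
  · rintro ⟨h1, h0, h2⟩
    refine ⟨?_, ?_⟩
    · intro i
      fin_cases i
      · exact ⟨h0.1, by have := h0.2; have := h1.2; simp only [Fin.zero_eta]; linarith⟩
      · exact h1
      · exact ⟨by have := h2.1; have := h1.1; simp only [Fin.reduceFinMk]; linarith, h2.2⟩
    · rw [Fin.strictMono_iff_lt_succ]
      intro i
      fin_cases i
      · exact h0.2
      · exact h2.1

lemma measurableSet_simplex3 : MeasurableSet (simplex 3) := by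
  have : simplex 3 = {x : Fin 3 → ℝ | (0 ≤ x 1 ∧ x 1 ≤ 1) ∧ (0 ≤ x 0 ∧ x 0 < x 1) ∧ (x 1 < x 2 ∧ x 2 ≤ 1)} := by
    ext x
    rw [simplex3]
    simp only [mem_Icc, mem_Ico, mem_Ioc, mem_ofPred_eq]
  rw [this]
  have m0 : Measurable (fun x : Fin 3 → ℝ => x 0) := measurable_pi_apply 0
  have m1 : Measurable (fun x : Fin 3 → ℝ => x 1) := measurable_pi_apply 1
  have m2 : Measurable (fun x : Fin 3 → ℝ => x 2) := measurable_pi_apply 2
  exact ((measurableSet_le measurable_const m1).inter (measurableSet_le m1 measurable_const)).inter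
    (((measurableSet_le measurable_const m0).inter (measurableSet_lt m0 m1)).inter
      ((measurableSet_lt m1 m2).inter (measurableSet_le m2 measurable_const)))

/-- bounded measurable on the unit interval -/
structure Bd (a : ℝ → ℝ) : Prop where
  meas : Measurable a
  bd : ∃ C : ℝ, 0 ≤ C ∧ ∀ x ∈ Icc (0:ℝ) 1, |a x| ≤ C

noncomputable def G (a b c : ℝ → ℝ) (p : ℝ × (Fin 2 → ℝ)) : ℝ :=
  (Icc (0:ℝ) 1).indicator b p.1 *
    ((Ico 0 p.1).indicator a (p.2 0) * (Ioc p.1 1).indicator c (p.2 1))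

lemma G_meas {a b c : ℝ → ℝ} (ha : Measurable a) (hb : Measurable b) (hc : Measurable c) :
    Measurable (G a b c) := by
  unfold G
  have e1 : (fun p : ℝ × (Fin 2 → ℝ) => (Ico 0 p.1).indicator a (p.2 0)) =
      {p : ℝ × (Fin 2 → ℝ) | 0 ≤ p.2 0 ∧ p.2 0 < p.1}.indicator (fun p => a (p.2 0)) := by
    funext p
    simp only [indicator, mem_Ico, mem_ofPred_eq]
  have e2 : (fun p : ℝ × (Fin 2 → ℝ) => (Ioc p.1 1).indicator c (p.2 1)) =
      {p : ℝ × (Fin 2 → ℝ) | p.1 < p.2 1 ∧ p.2 1 ≤ 1}.indicator (fun p => c (p.2 1)) := by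
    funext p
    simp only [indicator, mem_Ioc, mem_ofPred_eq]
  have m0 : Measurable (fun p : ℝ × (Fin 2 → ℝ) => p.2 0) := (measurable_pi_apply 0).comp measurable_snd
  have m1 : Measurable (fun p : ℝ × (Fin 2 → ℝ) => p.2 1) := (measurable_pi_apply 1).comp measurable_snd
  have k1 : Measurable (fun p : ℝ × (Fin 2 → ℝ) => (Ico 0 p.1).indicator a (p.2 0)) := by
    rw [e1]
    exact (ha.comp m0).indicator
      ((measurableSet_le measurable_const m0).inter (measurableSet_lt m0 measurable_fst))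
  have k2 : Measurable (fun p : ℝ × (Fin 2 → ℝ) => (Ioc p.1 1).indicator c (p.2 1)) := by
    rw [e2]
    exact (hc.comp m1).indicator
      ((measurableSet_lt measurable_fst m1).inter (measurableSet_le m1 measurable_const))
  exact ((hb.indicator measurableSet_Icc).comp measurable_fst).mul (k1.mul k2)

lemma G_int {a b c : ℝ → ℝ} (ha : Bd a) (hb : Bd b) (hc : Bd c) :
    Integrable (G a b c) (volume.prod volume) := by
  obtain ⟨A, hA0, hA⟩ := ha.bd
  obtain ⟨B, hB0, hB⟩ := hb.bd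
  obtain ⟨C, hC0, hC⟩ := hc.bd
  set K : Set (ℝ × (Fin 2 → ℝ)) := (Icc (0:ℝ) 1) ×ˢ (Icc (0 : Fin 2 → ℝ) 1) with hK
  have hKm : MeasurableSet K := measurableSet_Icc.prod measurableSet_Icc
  have hKf : (volume.prod volume) K < ⊤ := by
    rw [hK, Measure.prod_prod]
    exact ENNReal.mul_lt_top measure_Icc_lt_top measure_Icc_lt_top
  have hint : Integrable (K.indicator (fun _ => B * (A * C))) (volume.prod volume) := by
    rw [integrable_indicator_iff hKm]
    exact integrableOn_const hKf.ne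
  refine hint.mono' (G_meas ha.meas hb.meas hc.meas).aestronglyMeasurable (Filter.Eventually.of_forall ?_)
  rintro ⟨y, z⟩
  by_cases h : y ∈ Icc (0:ℝ) 1 ∧ z 0 ∈ Ico 0 y ∧ z 1 ∈ Ioc y 1
  · obtain ⟨h1, h0, h2⟩ := h
    have hz0 : z 0 ∈ Icc (0:ℝ) 1 := ⟨h0.1, by linarith [h0.2, h1.2]⟩
    have hz1 : z 1 ∈ Icc (0:ℝ) 1 := ⟨by linarith [h2.1, h1.1], h2.2⟩
    have hmem : ((y, z) : ℝ × (Fin 2 → ℝ)) ∈ K := by
      refine ⟨h1, ?_, ?_⟩
      · intro i
        fin_cases i
        · exact hz0.1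
        · exact hz1.1
      · intro i
        fin_cases i
        · exact hz0.2
        · exact hz1.2
    rw [indicator_of_mem hmem]
    simp only [G]
    rw [indicator_of_mem h1, indicator_of_mem h0, indicator_of_mem h2, Real.norm_eq_abs, abs_mul, abs_mul]
    exact mul_le_mul (hB _ h1) (mul_le_mul (hA _ hz0) (hC _ hz1) (abs_nonneg _) hA0) (by positivity) hB0
  · have hz : G a b c (y, z) = 0 := by
      simp only [G]
      by_cases h1 : y ∈ Icc (0:ℝ) 1
      · by_cases h0 : z 0 ∈ Ico 0 y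
        · have h2 : z 1 ∉ Ioc y 1 := fun h2 => h ⟨h1, h0, h2⟩
          rw [indicator_of_notMem h2]; ring
        · rw [indicator_of_notMem h0]; ring
      · rw [indicator_of_notMem h1]; ring
    rw [hz, norm_zero]
    exact indicator_nonneg (fun _ _ => by positivity) _

lemma G_comp (a b c : ℝ → ℝ) (x : Fin 3 → ℝ) :
    G a b c (MeasurableEquiv.piFinSuccAbove (fun _ : Fin 3 => ℝ) 1 x) =
      (simplex 3).indicator (fun x => a (x 0) * b (x 1) * c (x 2)) x := by
  have e1 : (MeasurableEquiv.piFinSuccAbove (fun _ : Fin 3 => ℝ) 1 x).1 = x 1 := rfl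
  have e2 : (MeasurableEquiv.piFinSuccAbove (fun _ : Fin 3 => ℝ) 1 x).2 0 = x 0 := rfl
  have e3 : (MeasurableEquiv.piFinSuccAbove (fun _ : Fin 3 => ℝ) 1 x).2 1 = x 2 := rfl
  unfold G
  rw [e1, e2, e3]
  by_cases h : x ∈ simplex 3
  · rw [indicator_of_mem h]
    obtain ⟨h1, h0, h2⟩ := (simplex3 x).1 h
    rw [indicator_of_mem h1, indicator_of_mem h0, indicator_of_mem h2]
    ring
  · rw [indicator_of_notMem h]
    by_cases h1 : x 1 ∈ Icc (0:ℝ) 1
    · by_cases h0 : x 0 ∈ Ico 0 (x 1)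
      · have h2 : x 2 ∉ Ioc (x 1) 1 := fun h2 => h ((simplex3 x).2 ⟨h1, h0, h2⟩)
        rw [indicator_of_notMem h2]; ring
      · rw [indicator_of_notMem h0]; ring
    · rw [indicator_of_notMem h1]; ring

/-- The basic trilinear integral over the ordered simplex. -/
noncomputable def T (a b c : ℝ → ℝ) : ℝ := ∫ x in simplex 3, a (x 0) * b (x 1) * c (x 2)

lemma T_integrable {a b c : ℝ → ℝ} (ha : Bd a) (hb : Bd b) (hc : Bd c) :
    IntegrableOn (fun x : Fin 3 → ℝ => a (x 0) * b (x 1) * c (x 2)) (simplex 3) := by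
  have mp := volume_preserving_piFinSuccAbove (fun _ : Fin 3 => ℝ) 1
  have h := (mp.integrable_comp_emb (MeasurableEquiv.measurableEmbedding _)).2 (G_int ha hb hc)
  rw [← integrable_indicator_iff measurableSet_simplex3]
  have e : (simplex 3).indicator (fun x : Fin 3 → ℝ => a (x 0) * b (x 1) * c (x 2)) =
      G a b c ∘ (MeasurableEquiv.piFinSuccAbove (fun _ : Fin 3 => ℝ) 1) := by
    funext x
    exact (G_comp a b c x).symm
  rw [e]
  exact h

lemma T_eq {a b c : ℝ → ℝ} (ha : Bd a) (hb : Bd b) (hc : Bd c) :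
    T a b c = ∫ y in Icc (0:ℝ) 1, b y * ((∫ z in Ico 0 y, a z) * (∫ z in Ioc y 1, c z)) := by
  unfold T
  rw [← integral_indicator measurableSet_simplex3]
  have mp := volume_preserving_piFinSuccAbove (fun _ : Fin 3 => ℝ) 1
  have h1 : ∫ x : Fin 3 → ℝ, (simplex 3).indicator (fun x => a (x 0) * b (x 1) * c (x 2)) x =
      ∫ p, G a b c p ∂((volume : Measure ℝ).prod (volume : Measure (Fin 2 → ℝ))) := by
    have h0 := mp.integral_comp (MeasurableEquiv.measurableEmbedding _) (G a b c)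
    have h3 : ∫ p, G a b c p ∂((volume : Measure ℝ).prod (volume : Measure (Fin 2 → ℝ))) =
        ∫ p : ℝ × (Fin 2 → ℝ), G a b c p := rfl
    rw [h3, ← h0]
    refine integral_congr_ae (Filter.Eventually.of_forall fun x => ?_)
    exact (G_comp a b c x).symm
  rw [h1, integral_prod _ (G_int ha hb hc), ← integral_indicator measurableSet_Icc]
  refine integral_congr_ae (Filter.Eventually.of_forall fun y => ?_)
  show ∫ z : Fin 2 → ℝ, G a b c (y, z) = _
  simp only [G]
  rw [integral_const_mul]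
  have h2 : ∫ z : Fin 2 → ℝ, (Ico 0 y).indicator a (z 0) * (Ioc y 1).indicator c (z 1) =
      (∫ z in Ico 0 y, a z) * (∫ z in Ioc y 1, c z) := by
    have := integral_fintype_prod_volume_eq_prod (ι := Fin 2) (𝕜 := ℝ) (E := fun _ => ℝ)
      (fun i => if i = 0 then (Ico 0 y).indicator a else (Ioc y 1).indicator c)
    simp only [Fin.prod_univ_two] at this
    simp only [Fin.isValue, if_true, one_ne_zero, if_false] at this
    rw [this, integral_indicator measurableSet_Ico, integral_indicator measurableSet_Ioc]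
  rw [h2]
  by_cases hy : y ∈ Icc (0:ℝ) 1
  · rw [indicator_of_mem hy, indicator_of_mem hy]
  · rw [indicator_of_notMem hy, indicator_of_notMem hy]; ring

end Pool.Agent.X182.PD
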