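import Pool.Agent.X182.PD.A

open MeasureTheory Set

namespace Pool.Agent.X182.PD

lemma Bd.const (k : ℝ) : Bd (fun _ => k) := ⟨measurable_const, |k|, abs_nonneg _, fun _ _ => le_rfl⟩

lemma Bd.mul {a b : ℝ → ℝ} (ha : Bd a) (hb : Bd b) : Bd (fun x => a x * b x) := by
  obtain ⟨A, hA0, hA⟩ := ha.bd
  obtain ⟨B, hB0, hB⟩ := hb.bd
  refine ⟨ha.meas.mul hb.meas, A * B, by positivity, fun x hx => ?_⟩
  rw [abs_mul]
  exact mul_le_mul (hA x hx) (hB x hx) (abs_nonneg _) hA0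

lemma Bd.sub {a b : ℝ → ℝ} (ha : Bd a) (hb : Bd b) : Bd (fun x => a x - b x) := by
  obtain ⟨A, hA0, hA⟩ := ha.bd
  obtain ⟨B, hB0, hB⟩ := hb.bd
  refine ⟨ha.meas.sub hb.meas, A + B, by positivity, fun x hx => ?_⟩
  exact (abs_sub _ _).trans (add_le_add (hA x hx) (hB x hx))

lemma Bd.integrableOn {a : ℝ → ℝ} (ha : Bd a) : IntegrableOn a (Icc (0:ℝ) 1) := by
  obtain ⟨A, hA0, hA⟩ := ha.bd
  refine Measure.integrableOn_of_bounded (M := A) measure_Icc_lt_top.ne ha.meas.aestronglyMeasurable ?_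
  exact (ae_restrict_iff' measurableSet_Icc).2 (Filter.Eventually.of_forall fun x hx => hA x hx)

lemma Adm.bd {f : ℝ → ℝ} (hf : Adm f) : Bd f := by
  refine ⟨hf.meas, 1, zero_le_one, fun x hx => ?_⟩
  rw [abs_of_nonneg (hf.mem x hx).1]
  exact (hf.mem x hx).2

lemma Adm.bd' {f : ℝ → ℝ} (hf : Adm f) : Bd (fun x => 1 - f x) := (Bd.const 1).sub hf.bd

def w0 : List Bool := [true, false, false]
def w1 : List Bool := [false, true, true]

lemma dens0 (f : ℝ → ℝ) : dens w0 f = 6 * T f (fun x => 1 - f x) (fun x => 1 - f x) := by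
  have h : dens w0 f = ((3).factorial : ℝ) * ∫ x in simplex 3, ∏ i : Fin 3, fac (w0.get i) (f (x i)) := rfl
  rw [h]
  simp only [Fin.prod_univ_three, w0, List.get, fac]
  norm_num [Nat.factorial, T]

lemma dens1 (f : ℝ → ℝ) : dens w1 f = 6 * T (fun x => 1 - f x) f f := by
  have h : dens w1 f = ((3).factorial : ℝ) * ∫ x in simplex 3, ∏ i : Fin 3, fac (w1.get i) (f (x i)) := rfl
  rw [h]
  simp only [Fin.prod_univ_three, w1, List.get, fac]
  norm_num [Nat.factorial, T]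

lemma int_Ico (y k : ℝ) (hy : y ∈ Icc (0:ℝ) 1) : ∫ _ in Ico 0 y, k = k * y := by
  rw [setIntegral_const]
  simp [Measure.real, hy.1, mul_comm]

lemma int_Ioc (y k : ℝ) (hy : y ∈ Icc (0:ℝ) 1) : ∫ _ in Ioc y 1, k = k * (1 - y) := by
  rw [setIntegral_const]
  simp [Measure.real, hy.2, mul_comm]

lemma int_Icc_const (k : ℝ) : ∫ _ in Icc (0:ℝ) 1, k = k := by
  rw [setIntegral_const]
  simp [Measure.real]

lemma int_le {a : ℝ → ℝ} (ha : Bd a) (ha0 : ∀ x, 0 ≤ a x) {s : Set ℝ} (hs : s ⊆ Icc (0:ℝ) 1) :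
    ∫ x in s, a x ≤ ∫ x in Icc (0:ℝ) 1, a x :=
  setIntegral_mono_set ha.integrableOn (Filter.Eventually.of_forall ha0) (LE.le.eventuallyLE hs)

lemma int_nonneg {a : ℝ → ℝ} (ha0 : ∀ x, 0 ≤ a x) (s : Set ℝ) : 0 ≤ ∫ x in s, a x :=
  integral_nonneg ha0

/-- `T` of nonnegative functions is at most the product of integrals. -/
lemma T_le {a b c : ℝ → ℝ} (ha : Bd a) (hb : Bd b) (hc : Bd c) (ha0 : ∀ x, 0 ≤ a x)
    (hb0 : ∀ x, 0 ≤ b x) (hc0 : ∀ x, 0 ≤ c x) :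
    T a b c ≤ (∫ x in Icc (0:ℝ) 1, a x) * (∫ x in Icc (0:ℝ) 1, b x) * (∫ x in Icc (0:ℝ) 1, c x) := by
  rw [T_eq ha hb hc]
  have h : ∀ y ∈ Icc (0:ℝ) 1, b y * ((∫ z in Ico 0 y, a z) * (∫ z in Ioc y 1, c z)) ≤
      b y * ((∫ x in Icc (0:ℝ) 1, a x) * (∫ x in Icc (0:ℝ) 1, c x)) := by
    intro y hy
    refine mul_le_mul_of_nonneg_left ?_ (hb0 y)
    refine mul_le_mul (int_le ha ha0 ?_) (int_le hc hc0 ?_) (int_nonneg hc0 _) (int_nonneg ha0 _)
    · exact fun z hz => ⟨hz.1, by linarith [hz.2, hy.2]⟩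
    · exact fun z hz => ⟨by linarith [hz.1, hy.1], hz.2⟩
  calc ∫ y in Icc (0:ℝ) 1, b y * ((∫ z in Ico 0 y, a z) * (∫ z in Ioc y 1, c z))
      ≤ ∫ y in Icc (0:ℝ) 1, b y * ((∫ x in Icc (0:ℝ) 1, a x) * (∫ x in Icc (0:ℝ) 1, c x)) := by
        refine integral_mono_of_nonneg ?_ ?_ ?_
        · exact Filter.Eventually.of_forall fun y =>
            mul_nonneg (hb0 y) (mul_nonneg (int_nonneg ha0 _) (int_nonneg hc0 _))
        · exact (hb.integrableOn).mul_const _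
        · exact (ae_restrict_iff' measurableSet_Icc).2 (Filter.Eventually.of_forall h)
    _ = _ := by
        rw [integral_mul_const]; ring

lemma T_one : T (fun _ => 1) (fun _ => 1) (fun _ => 1) = 1 / 6 := by
  rw [T_eq (Bd.const 1) (Bd.const 1) (Bd.const 1)]
  have h : ∀ y ∈ Icc (0:ℝ) 1, (1:ℝ) * ((∫ z in Ico 0 y, (1:ℝ)) * (∫ z in Ioc y 1, (1:ℝ))) = y - y ^ 2 := by
    intro y hy
    rw [int_Ico y 1 hy, int_Ioc y 1 hy]; ring
  rw [setIntegral_congr_fun measurableSet_Icc h, integral_Icc_eq_integral_Ioc,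
    ← intervalIntegral.integral_of_le zero_le_one, intervalIntegral.integral_sub]
  · simp only [integral_id, integral_pow]; norm_num
  · exact Continuous.intervalIntegrable continuous_id _ _
  · exact Continuous.intervalIntegrable (continuous_pow 2) _ _

lemma sum_formula {f : ℝ → ℝ} (hf : Adm f) :
    dens w0 f + dens w1 f - 1 / 4 =
      6 * ∫ x in simplex 3, ((f (x 1) - 1/2) * (f (x 2) - 1/2) - (f (x 0) - 1/2) * (f (x 1) - 1/2)
        - (f (x 0) - 1/2) * (f (x 2) - 1/2)) := by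
  have hone : (1:ℝ) / 4 = 6 * ∫ x in simplex 3, ((1:ℝ)/4) * ((1:ℝ) * 1 * 1) := by
    rw [integral_const_mul]
    have := T_one
    unfold T at this
    rw [this]; norm_num
  rw [dens0, dens1, ← mul_add]
  unfold T
  rw [← integral_add (T_integrable hf.bd hf.bd' hf.bd') (T_integrable hf.bd' hf.bd hf.bd)]
  conv_lhs => rw [hone]
  rw [← mul_sub, ← integral_sub]
  · congr 1
    refine integral_congr_ae (Filter.Eventually.of_forall fun x => ?_)
    simp only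
    ring
  · exact (T_integrable hf.bd hf.bd' hf.bd').add (T_integrable hf.bd' hf.bd hf.bd)
  · exact (T_integrable (Bd.const 1) (Bd.const 1) (Bd.const 1)).const_mul _

lemma sum_bound {f : ℝ → ℝ} (hf : Adm f) :
    |dens w0 f + dens w1 f - 1 / 4| ≤ 18 * ∫ x in Icc (0:ℝ) 1, (f x - 1/2) ^ 2 := by
  have hh : Bd (fun x => f x - 1/2) := hf.bd.sub (Bd.const _)
  have hh2 : Bd (fun x => (f x - 1/2) ^ 2) := by
    have := hh.mul hh
    simp only [← pow_two] at this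
    exact this
  have h1 := Bd.const 1
  rw [sum_formula hf, abs_mul]
  have i1 := T_integrable hh2 h1 h1
  have i2 := T_integrable h1 hh2 h1
  have i3 := T_integrable h1 h1 hh2
  have e : |∫ x in simplex 3, ((f (x 1) - 1/2) * (f (x 2) - 1/2) - (f (x 0) - 1/2) * (f (x 1) - 1/2)
        - (f (x 0) - 1/2) * (f (x 2) - 1/2))| ≤
      T (fun x => (f x - 1/2) ^ 2) (fun _ => 1) (fun _ => 1) + T (fun _ => 1) (fun x => (f x - 1/2) ^ 2) (fun _ => 1)
        + T (fun _ => 1) (fun _ => 1) (fun x => (f x - 1/2) ^ 2) := by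
    unfold T
    have i12 : Integrable (fun a : Fin 3 → ℝ => (f (a 0) - 1/2) ^ 2 * 1 * 1 + 1 * (f (a 1) - 1/2) ^ 2 * 1)
        (volume.restrict (simplex 3)) := i1.add i2
    have i123 : Integrable (fun a : Fin 3 → ℝ => (f (a 0) - 1/2) ^ 2 * 1 * 1 + 1 * (f (a 1) - 1/2) ^ 2 * 1
        + 1 * 1 * (f (a 2) - 1/2) ^ 2) (volume.restrict (simplex 3)) := i12.add i3
    rw [← integral_add i1 i2, ← integral_add i12 i3]
    refine (abs_integral_le_integral_abs).trans ?_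
    refine integral_mono_of_nonneg (Filter.Eventually.of_forall fun _ => abs_nonneg _) i123
      (Filter.Eventually.of_forall fun x => ?_)
    simp only
    rw [abs_le]
    constructor <;> nlinarith [sq_nonneg (f (x 0) - 1/2 + (f (x 1) - 1/2)), sq_nonneg (f (x 0) - 1/2 - (f (x 1) - 1/2)),
      sq_nonneg (f (x 0) - 1/2 + (f (x 2) - 1/2)), sq_nonneg (f (x 0) - 1/2 - (f (x 2) - 1/2)),
      sq_nonneg (f (x 1) - 1/2 + (f (x 2) - 1/2)), sq_nonneg (f (x 1) - 1/2 - (f (x 2) - 1/2))]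
  have n2 : ∀ x, 0 ≤ (f x - 1/2) ^ 2 := fun x => sq_nonneg _
  have n1 : ∀ x : ℝ, (0:ℝ) ≤ 1 := fun _ => zero_le_one
  have b1 := T_le hh2 h1 h1 n2 n1 n1
  have b2 := T_le h1 hh2 h1 n1 n2 n1
  have b3 := T_le h1 h1 hh2 n1 n1 n2
  simp only [int_Icc_const, mul_one, one_mul] at b1 b2 b3
  rw [abs_of_pos (by norm_num : (0:ℝ) < 6)]
  linarith

end Pool.Agent.X182.PD
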