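import Pool.Agent.X182.PD.B

open MeasureTheory Set

namespace Pool.Agent.X182.PD

/-- The three-parameter family of densities. -/
noncomputable def fam (p q r x : ℝ) : ℝ := 1/2 + 2*p*(1-x) - q*(1-2*x) - r*(2-14*x+15*x^2)

noncomputable def HH (p q r x : ℝ) : ℝ := p*(1-x)^2 + q*x*(1-x) + r*x*(1-x)*(2-5*x)

lemma fam_cont (p q r : ℝ) : Continuous (fam p q r) := by
  unfold fam
  fun_prop

lemma HH_deriv (p q r x : ℝ) : HasDerivAt (HH p q r) (1/2 - fam p q r x) x := by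
  unfold HH fam
  have h1 : HasDerivAt (fun x : ℝ => 1 - x) (-1) x := by simpa using (hasDerivAt_id x).const_sub 1
  have h2 : HasDerivAt (fun x : ℝ => 2 - 5 * x) (-5) x := by
    simpa using ((hasDerivAt_id x).const_mul 5).const_sub 2
  have h3 := (((h1.pow 2).const_mul p).add (((hasDerivAt_id x).const_mul q).mul h1)).add
    ((((hasDerivAt_id x).const_mul r).mul h1).mul h2)
  refine h3.congr_deriv ?_
  simp only [id_eq, mul_one, Nat.cast_ofNat, Pi.mul_apply]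
  ring

lemma int_fam (p q r y : ℝ) (hy : y ∈ Icc (0:ℝ) 1) :
    ∫ z in Ico 0 y, fam p q r z = y / 2 + p - HH p q r y := by
  rw [integral_Ico_eq_integral_Ioo, ← integral_Ioc_eq_integral_Ioo, ← intervalIntegral.integral_of_le hy.1]
  have h : ∀ x ∈ uIcc 0 y, HasDerivAt (fun z => z / 2 - HH p q r z) (fam p q r x) x := by
    intro x _
    exact (((hasDerivAt_id x).div_const 2).sub (HH_deriv p q r x)).congr_deriv (by ring)
  rw [intervalIntegral.integral_eq_sub_of_hasDerivAt h ((fam_cont p q r).intervalIntegrable _ _)]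
  simp only [HH]; ring

lemma int_fam' (p q r y : ℝ) (hy : y ∈ Icc (0:ℝ) 1) :
    ∫ z in Ioc y 1, (1 - fam p q r z) = (1 - y) / 2 - HH p q r y := by
  rw [← intervalIntegral.integral_of_le hy.2]
  have h : ∀ x ∈ uIcc y 1, HasDerivAt (fun z => z / 2 + HH p q r z) (1 - fam p q r x) x := by
    intro x _
    exact (((hasDerivAt_id x).div_const 2).add (HH_deriv p q r x)).congr_deriv (by ring)
  rw [intervalIntegral.integral_eq_sub_of_hasDerivAt h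
    ((continuous_const.sub (fam_cont p q r)).intervalIntegrable _ _)]
  simp only [HH]; ring

/-- coefficients of the integrand polynomial -/
noncomputable def coef (p q r : ℝ) : ℕ → ℝ
  | 0 => 0
  | 1 => (1/8 : ℝ) + (-(2/1) : ℝ) * r^2 + (-(2/1) : ℝ) * q * r + (-(1/2) : ℝ) * q^2 + (-(1/4) : ℝ) * p + (4/1 : ℝ) * p * r + (4/1 : ℝ) * p * r^2 + (2/1 : ℝ) * p * q + (4/1 : ℝ) * p * q * r + (1/1 : ℝ) * p * q^2 + (-(2/1) : ℝ) * p^2 + (-(8/1) : ℝ) * p^2 * r + (-(4/1) : ℝ) * p^2 * q + (4/1 : ℝ) * p^3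
  | 2 => (-(1/8) : ℝ) + (-(9/4) : ℝ) * r + (23/1 : ℝ) * r^2 + (8/1 : ℝ) * r^3 + (-(1/2) : ℝ) * q + (31/2 : ℝ) * q * r + (12/1 : ℝ) * q * r^2 + (2/1 : ℝ) * q^2 + (6/1 : ℝ) * q^2 * r + (1/1 : ℝ) * q^3 + (3/4 : ℝ) * p + (-(49/2) : ℝ) * p * r + (-(66/1) : ℝ) * p * r^2 + (-(6/1) : ℝ) * p * q + (-(51/1) : ℝ) * p * q * r + (-(9/1) : ℝ) * p * q^2 + (9/2 : ℝ) * p^2 + (72/1 : ℝ) * p^2 * r + (21/1 : ℝ) * p^2 * q + (-(14/1) : ℝ) * p^3
  | 3 => (6/1 : ℝ) * r + (-(83/1) : ℝ) * r^2 + (-(112/1) : ℝ) * r^3 + (1/2 : ℝ) * q + (-(33/1) : ℝ) * q * r + (-(128/1) : ℝ) * q * r^2 + (-(2/1) : ℝ) * q^2 + (-(44/1) : ℝ) * q^2 * r + (-(4/1) : ℝ) * q^3 + (-(1/2) : ℝ) * p + (45/1 : ℝ) * p * r + (378/1 : ℝ) * p * r^2 + (5/1 : ℝ) * p * q + (208/1 : ℝ) * p * q * r + (22/1 : ℝ) * p * q^2 + (-(3/1) : ℝ) * p^2 + (-(212/1) : ℝ) * p^2 * r + (-(36/1) : ℝ) * p^2 * q + (18/1 : ℝ) * p^3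
  | 4 => (-(15/4) : ℝ) * r + (122/1 : ℝ) * r^2 + (590/1 : ℝ) * r^3 + (49/2 : ℝ) * q * r + (485/1 : ℝ) * q * r^2 + (1/2 : ℝ) * q^2 + (105/1 : ℝ) * q^2 * r + (5/1 : ℝ) * q^3 + (-(59/2) : ℝ) * p * r + (-(1005/1) : ℝ) * p * r^2 + (-(1/1) : ℝ) * p * q + (-(355/1) : ℝ) * p * q * r + (-(20/1) : ℝ) * p * q^2 + (1/2 : ℝ) * p^2 + (275/1 : ℝ) * p^2 * r + (25/1 : ℝ) * p^2 * q + (-(10/1) : ℝ) * p^3
  | 5 => (-(145/2) : ℝ) * r^2 + (-(1526/1) : ℝ) * r^3 + (-(5/1) : ℝ) * q * r + (-(834/1) : ℝ) * q * r^2 + (-(102/1) : ℝ) * q^2 * r + (-(2/1) : ℝ) * q^3 + (5/1 : ℝ) * p * r + (1329/1 : ℝ) * p * r^2 + (264/1 : ℝ) * p * q * r + (6/1 : ℝ) * p * q^2 + (-(162/1) : ℝ) * p^2 * r + (-(6/1) : ℝ) * p^2 * q + (2/1 : ℝ) * p^3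
  | 6 => (25/2 : ℝ) * r^2 + (2065/1 : ℝ) * r^3 + (665/1 : ℝ) * q * r^2 + (35/1 : ℝ) * q^2 * r + (-(840/1) : ℝ) * p * r^2 + (-(70/1) : ℝ) * p * q * r + (35/1 : ℝ) * p^2 * r
  | 7 => (-(1400/1) : ℝ) * r^3 + (-(200/1) : ℝ) * q * r^2 + (200/1 : ℝ) * p * r^2
  | 8 => (375/1 : ℝ) * r^3
  | _ => 0

lemma int_poly (a : ℕ → ℝ) (n : ℕ) :
    ∫ y in Icc (0:ℝ) 1, ∑ k ∈ Finset.range n, a k * y ^ k = ∑ k ∈ Finset.range n, a k / (k + 1) := by
  rw [integral_Icc_eq_integral_Ioc, ← intervalIntegral.integral_of_le zero_le_one,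
    intervalIntegral.integral_finsetSum]
  · refine Finset.sum_congr rfl fun k _ => ?_
    rw [intervalIntegral.integral_const_mul, integral_pow]
    simp [div_eq_mul_inv]
  · intro k _
    exact (continuous_const.mul (continuous_pow k)).intervalIntegrable _ _

lemma integrand_eq (p q r y : ℝ) :
    (1 - fam p q r y) * ((y / 2 + p - HH p q r y) * ((1 - y) / 2 - HH p q r y)) =
      ∑ k ∈ Finset.range 9, coef p q r k * y ^ k := by
  simp only [Finset.sum_range_succ, Finset.sum_range_zero, coef, fam, HH]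
  ring

lemma fam_Bd (p q r : ℝ) : Bd (fam p q r) := by
  refine ⟨(fam_cont p q r).measurable, ?_⟩
  obtain ⟨C, hC⟩ := isCompact_Icc.exists_bound_of_continuousOn (s := Icc (0:ℝ) 1)
    (fam_cont p q r).continuousOn
  exact ⟨max C 0, le_max_right _ _, fun x hx => (hC x hx).trans (le_max_left _ _)⟩

lemma dens0_fam (p q r : ℝ) : dens w0 (fam p q r) =
    1/8 - 9/10 * p^2 + 3/10 * p * q + 1/10 * p * r + p^3 + 1/10 * q^2 - 1/10 * q * r + 4/35 * r^2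
      - 1/4 * q := by
  have hb := fam_Bd p q r
  have hb' : Bd (fun x => 1 - fam p q r x) := (Bd.const 1).sub hb
  rw [dens0, T_eq hb hb' hb']
  have h : ∀ y ∈ Icc (0:ℝ) 1, (1 - fam p q r y) * ((∫ z in Ico 0 y, fam p q r z) *
      (∫ z in Ioc y 1, (1 - fam p q r z))) = ∑ k ∈ Finset.range 9, coef p q r k * y ^ k := by
    intro y hy
    rw [int_fam p q r y hy, int_fam' p q r y hy, integrand_eq]
  rw [setIntegral_congr_fun measurableSet_Icc h, int_poly]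
  simp only [Finset.sum_range_succ, Finset.sum_range_zero, coef]
  push_cast
  ring

lemma dens1_eq (f g : ℝ → ℝ) (h : ∀ x, g x = 1 - f x) : dens w1 f = dens w0 g := by
  rw [dens0, dens1]
  have h1 : (fun x => 1 - f x) = g := by funext x; exact (h x).symm
  have h2 : (fun x => 1 - g x) = f := by funext x; rw [h x]; ring
  rw [h1, h2]

lemma dens1_fam (p q r : ℝ) : dens w1 (fam p q r) =
    1/8 - 9/10 * p^2 + 3/10 * p * q + 1/10 * p * r - p^3 + 1/10 * q^2 - 1/10 * q * r + 4/35 * r^2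
      + 1/4 * q := by
  rw [dens1_eq (fam p q r) (fam (-p) (-q) (-r)) (fun x => by unfold fam; ring), dens0_fam]
  ring

lemma fam_adm {p q r : ℝ} (hp : |p| ≤ 1/10) (hq : |q| ≤ 1/50) (hr : |r| ≤ 1/12) : Adm (fam p q r) := by
  refine ⟨(fam_cont p q r).measurable, fun x hx => ?_⟩
  have h1 : |p * (1 - x)| ≤ 1/10 * 1 := by
    rw [abs_mul]
    refine mul_le_mul hp ?_ (abs_nonneg _) (by norm_num)
    rw [abs_le]; constructor <;> linarith [hx.1, hx.2]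
  have h2 : |q * (1 - 2 * x)| ≤ 1/50 * 1 := by
    rw [abs_mul]
    refine mul_le_mul hq ?_ (abs_nonneg _) (by norm_num)
    rw [abs_le]; constructor <;> linarith [hx.1, hx.2]
  have h3 : |r * (2 - 14 * x + 15 * x^2)| ≤ 1/12 * 3 := by
    rw [abs_mul]
    refine mul_le_mul hr ?_ (abs_nonneg _) (by norm_num)
    rw [abs_le]; constructor <;> nlinarith [hx.1, hx.2, sq_nonneg (x - 7/15)]
  rw [abs_le] at h1 h2 h3
  unfold fam
  constructor <;> nlinarith [h1.1, h1.2, h2.1, h2.2, h3.1, h3.2]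

end Pool.Agent.X182.PD
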