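import Pool.Agent.X182.PD.C

open MeasureTheory Set

namespace Pool.Agent.X182.PD

/-- the list of words `100, 011`. -/
def W0 : Fin 2 → List Bool := ![[true, false, false], [false, true, true]]

/-- entropy inequality for one half of the entropy -/
lemma half_entropy {p : ℝ} (hp : 0 ≤ p) : -p * Real.log p ≤ p * Real.log 2 + Real.sqrt (2 * p) - 2 * p := by
  rcases hp.eq_or_lt with h | h
  · rw [← h]; simp
  · set u := Real.sqrt (2 * p) with hu
    have hu0 : 0 < u := Real.sqrt_pos.2 (by linarith)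
    have hu2 : u * u = 2 * p := Real.mul_self_sqrt (by linarith)
    have h1 : Real.log (2 * p) = 2 * Real.log u := by
      rw [← hu2, Real.log_mul hu0.ne' hu0.ne']; ring
    have h2 : Real.log (2 * p) = Real.log 2 + Real.log p := Real.log_mul (by norm_num) h.ne'
    have h3 : Real.log u⁻¹ ≤ u⁻¹ - 1 := Real.log_le_sub_one_of_pos (inv_pos.2 hu0)
    rw [Real.log_inv] at h3
    have h4 : p * u⁻¹ = u / 2 := by
      have : p = u * u / 2 := by linarith
      rw [this]; field_simp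
    have h5 : 2 * p * (-Real.log u) ≤ 2 * p * (u⁻¹ - 1) := mul_le_mul_of_nonneg_left h3 (by linarith)
    have h6 : 2 * p * (u⁻¹ - 1) = u - 2 * p := by
      have : 2 * p * (u⁻¹ - 1) = 2 * (p * u⁻¹) - 2 * p := by ring
      rw [this, h4]; ring
    have h7 : -p * Real.log p = p * Real.log 2 + 2 * p * (-Real.log u) := by
      have : Real.log p = 2 * Real.log u - Real.log 2 := by linarith
      rw [this]; ring
    linarith

lemma S_le {p : ℝ} (hp : p ∈ Icc (0:ℝ) 1) : S p ≤ Real.log 2 - (p - 1/2) ^ 2 := by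
  have h1 := half_entropy hp.1
  have h2 := half_entropy (p := 1 - p) (by linarith [hp.2])
  set s := Real.sqrt (2 * p) with hs
  set t := Real.sqrt (2 * (1 - p)) with ht
  have hs0 : 0 ≤ s := Real.sqrt_nonneg _
  have ht0 : 0 ≤ t := Real.sqrt_nonneg _
  have hs2 : s * s = 2 * p := Real.mul_self_sqrt (by linarith [hp.1])
  have ht2 : t * t = 2 * (1 - p) := Real.mul_self_sqrt (by linarith [hp.2])
  unfold S
  have hst : s + t ≤ 2 := by nlinarith [sq_nonneg (s - t)]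
  -- (p - 1/2)^2 = (s-t)^2 (s+t)^2 / 16 ≤ (s-t)^2/4 ≤ 2 - (s+t)
  have e1 : p - 1/2 = (s - t) * (s + t) / 4 := by
    have : (s - t) * (s + t) = s * s - t * t := by ring
    rw [this, hs2, ht2]; ring
  have e2 : (p - 1/2) ^ 2 = (s - t)^2 * (s + t)^2 / 16 := by rw [e1]; ring
  have e3 : (s + t)^2 ≤ 4 := by nlinarith
  have e4 : (p - 1/2) ^ 2 ≤ (s - t)^2 / 4 := by
    rw [e2]
    have := mul_le_mul_of_nonneg_left e3 (sq_nonneg (s - t))
    linarith
  have e5 : (s - t)^2 = 4 - (s + t)^2 := by nlinarith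
  have e6 : (s - t)^2 / 4 ≤ 2 - (s + t) := by
    rw [e5]; nlinarith
  have e7 : -(1 - p) * Real.log (1 - p) = -((1 - p) * Real.log (1 - p)) := by ring
  rw [e7] at h2
  have : p * Real.log 2 + (1 - p) * Real.log 2 = Real.log 2 := by ring
  linarith

lemma S_nonneg {p : ℝ} (hp : p ∈ Icc (0:ℝ) 1) : 0 ≤ S p := by
  unfold S
  have h1 : Real.log p ≤ 0 := Real.log_nonpos hp.1 hp.2
  have h2 : Real.log (1 - p) ≤ 0 := Real.log_nonpos (by linarith [hp.2]) (by linarith [hp.1])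
  nlinarith [mul_nonneg hp.1 (neg_nonneg.2 h1), mul_nonneg (by linarith [hp.2] : (0:ℝ) ≤ 1 - p) (neg_nonneg.2 h2)]

lemma S_half : S (1/2) = Real.log 2 := by
  unfold S
  have : (1:ℝ) - 1/2 = 2⁻¹ := by norm_num
  rw [this]
  have h2 : (1:ℝ)/2 = 2⁻¹ := by norm_num
  rw [h2, Real.log_inv]; ring

lemma Ent_le {f : ℝ → ℝ} (hf : Adm f) :
    Ent f ≤ Real.log 2 - ∫ x in Icc (0:ℝ) 1, (f x - 1/2) ^ 2 := by
  have hh : Bd (fun x => f x - 1/2) := hf.bd.sub (Bd.const _)
  have hh2 : Bd (fun x => (f x - 1/2) ^ 2) := by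
    have := hh.mul hh
    simp only [← pow_two] at this
    exact this
  have e : Real.log 2 - ∫ x in Icc (0:ℝ) 1, (f x - 1/2) ^ 2 =
      ∫ x in Icc (0:ℝ) 1, (Real.log 2 - (f x - 1/2) ^ 2) := by
    rw [integral_sub (Bd.const _).integrableOn hh2.integrableOn, int_Icc_const]
  rw [e]
  unfold Ent
  refine integral_mono_of_nonneg ?_ (((Bd.const _).sub hh2).integrableOn) ?_
  · exact (ae_restrict_iff' measurableSet_Icc).2 (Filter.Eventually.of_forall fun x hx => S_nonneg (hf.mem x hx))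
  · exact (ae_restrict_iff' measurableSet_Icc).2 (Filter.Eventually.of_forall fun x hx => S_le (hf.mem x hx))

lemma Ent_le_of_dens {f : ℝ → ℝ} (hf : Adm f) {δ : Fin 2 → ℝ} (h : ∀ i, dens (W0 i) f = δ i) :
    Ent f ≤ Real.log 2 - |δ 0 + δ 1 - 1/4| / 18 := by
  have h0 : dens w0 f = δ 0 := h 0
  have h1 : dens w1 f = δ 1 := h 1
  have := sum_bound hf
  rw [h0, h1] at this
  have := Ent_le hf
  linarith

lemma entFn_le {δ : Fin 2 → ℝ} (hδ : δ ∈ feasible W0) :
    entFn W0 δ ≤ Real.log 2 - |δ 0 + δ 1 - 1/4| / 18 := by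
  obtain ⟨f, hf, h⟩ := hδ
  refine csSup_le ⟨_, f, hf, h, rfl⟩ ?_
  rintro e ⟨g, hg, h', rfl⟩
  exact Ent_le_of_dens hg h'

lemma fam_zero : fam 0 0 0 = fun _ => 1/2 := by
  funext x; unfold fam; ring

lemma fam0_adm : Adm (fam 0 0 0) := fam_adm (by norm_num) (by norm_num) (by norm_num)

/-- the centre point `(1/8, 1/8)`. -/
noncomputable def pt : Fin 2 → ℝ := fun _ => 1/8

lemma fam0_dens (i : Fin 2) : dens (W0 i) (fam 0 0 0) = pt i := by
  fin_cases i
  · have : dens w0 (fam 0 0 0) = 1/8 := by rw [dens0_fam]; ring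
    exact this
  · have : dens w1 (fam 0 0 0) = 1/8 := by rw [dens1_fam]; ring
    exact this

lemma entFn_pt : entFn W0 pt = Real.log 2 := by
  apply le_antisymm
  · have := entFn_le (δ := pt) ⟨_, fam0_adm, fam0_dens⟩
    have e : |pt 0 + pt 1 - 1/4| = 0 := by simp only [pt]; norm_num
    rw [e] at this
    linarith
  · have hE : Ent (fam 0 0 0) = Real.log 2 := by
      unfold Ent
      simp only [fam_zero, S_half]
      exact int_Icc_const _
    rw [← hE]
    refine le_csSup ⟨Real.log 2, ?_⟩ ⟨_, fam0_adm, fam0_dens, rfl⟩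
    rintro e ⟨g, hg, h', rfl⟩
    have := Ent_le_of_dens hg h'
    have := abs_nonneg (pt 0 + pt 1 - 1/4)
    linarith

lemma mem_feasible {δ : Fin 2 → ℝ} {p q r : ℝ} (hp : |p| ≤ 1/10) (hq : |q| ≤ 1/50) (hr : |r| ≤ 1/12)
    (h1 : δ 0 + δ 1 - 1/4 = - (9/5) * p^2 + q^2/5 + 8/35 * r^2 + 3/5 * p * q + p * r / 5 - q * r / 5)
    (h2 : δ 0 - δ 1 = 2 * p^3 - q/2) : δ ∈ feasible W0 := by
  refine ⟨fam p q r, fam_adm hp hq hr, fun i => ?_⟩
  fin_cases i
  · have : dens w0 (fam p q r) = δ 0 := by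
      rw [dens0_fam]; linarith
    exact this
  · have : dens w1 (fam p q r) = δ 1 := by
      rw [dens1_fam]; linarith
    exact this

lemma nbhd_feasible {δ : Fin 2 → ℝ} (hs : |δ 0 + δ 1 - 1/4| < 1/1000) (hd : |δ 0 - δ 1| < 1/1000) :
    δ ∈ feasible W0 := by
  set s := δ 0 + δ 1 - 1/4 with hsdef
  set d := δ 0 - δ 1 with hddef
  rw [abs_lt] at hs hd
  rcases le_or_gt (4 * d^2 / 5) s with h | h
  · -- p = 0, q = -2 d, vary r
    have hc : ContinuousOn (fun r : ℝ => (-2*d)^2/5 + 8/35 * r^2 - (-2*d) * r / 5) (Icc 0 (1/12)) := by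
      fun_prop
    have hmem : s ∈ Icc ((fun r : ℝ => (-2*d)^2/5 + 8/35 * r^2 - (-2*d) * r / 5) 0)
        ((fun r : ℝ => (-2*d)^2/5 + 8/35 * r^2 - (-2*d) * r / 5) (1/12)) := by
      constructor
      · simp only; nlinarith
      · simp only; nlinarith [hs.2, hd.1, hd.2, sq_nonneg d]
    obtain ⟨r, hr, hrs⟩ := intermediate_value_Icc (by norm_num : (0:ℝ) ≤ 1/12) hc hmem
    refine mem_feasible (p := 0) (q := -2*d) (r := r) (by norm_num) ?_ ?_ ?_ ?_
    · rw [abs_le]; constructor <;> linarith [hd.1, hd.2]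
    · rw [abs_le]; constructor <;> linarith [hr.1, hr.2]
    · simp only at hrs
      rw [← hsdef, ← hrs]; ring
    · rw [← hddef]; ring
  · have hc : ContinuousOn (fun p : ℝ => - (9/5) * p^2 + (4*p^3 - 2*d)^2/5 + 3/5 * p * (4*p^3 - 2*d))
        (Icc 0 (1/10)) := by
      fun_prop
    have hmem : s ∈ Icc ((fun p : ℝ => - (9/5) * p^2 + (4*p^3 - 2*d)^2/5 + 3/5 * p * (4*p^3 - 2*d)) (1/10))
        ((fun p : ℝ => - (9/5) * p^2 + (4*p^3 - 2*d)^2/5 + 3/5 * p * (4*p^3 - 2*d)) 0) := by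
      constructor
      · simp only; nlinarith [hs.1, hd.1, hd.2]
      · simp only; nlinarith
    obtain ⟨p, hp, hps⟩ := intermediate_value_Icc' (by norm_num : (0:ℝ) ≤ 1/10) hc hmem
    have hp3 : p^3 ≤ 1/1000 := by
      have := pow_le_pow_left₀ hp.1 hp.2 3
      norm_num at this ⊢
      exact this
    have hp30 : 0 ≤ p^3 := pow_nonneg hp.1 3
    refine mem_feasible (p := p) (q := 4*p^3 - 2*d) (r := 0) ?_ ?_ (by norm_num) ?_ ?_
    · rw [abs_le]; constructor <;> linarith [hp.1, hp.2]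
    · rw [abs_le]; constructor <;> linarith [hd.1, hd.2]
    · simp only at hps
      rw [← hsdef, ← hps]; ring
    · rw [← hddef]; ring

lemma pt_interior : pt ∈ interior (feasible W0) := by
  rw [mem_interior]
  refine ⟨{δ : Fin 2 → ℝ | |δ 0 + δ 1 - 1/4| < 1/1000} ∩ {δ : Fin 2 → ℝ | |δ 0 - δ 1| < 1/1000}, ?_, ?_, ?_⟩
  · rintro δ ⟨h1, h2⟩
    exact nbhd_feasible h1 h2
  · refine IsOpen.inter (isOpen_lt (by fun_prop) continuous_const) (isOpen_lt (by fun_prop) continuous_const)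
  · constructor
    · simp only [mem_ofPred_eq, pt]; norm_num
    · simp only [mem_ofPred_eq, pt]; norm_num

/-- The entropy function is not differentiable at `(1/8, 1/8)`. -/
theorem not_diff : ¬ DifferentiableAt ℝ (entFn W0) pt := by
  intro hd
  set φ : ℝ → ℝ := fun t => entFn W0 (fun _ => 1/8 + t) with hφ
  have hpath : HasDerivAt (fun t : ℝ => (fun _ : Fin 2 => (1:ℝ)/8 + t)) (fun _ => 1) 0 := by
    rw [hasDerivAt_pi]
    intro i
    exact (hasDerivAt_id (0:ℝ)).const_add (1/8)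
  have hpt : (fun _ : Fin 2 => (1:ℝ)/8 + 0) = pt := by
    funext i; simp [pt]
  have hd' : HasFDerivAt (entFn W0) (fderiv ℝ (entFn W0) pt) (fun _ : Fin 2 => (1:ℝ)/8 + 0) := by
    rw [hpt]; exact hd.hasFDerivAt
  have hφd : HasDerivAt φ (fderiv ℝ (entFn W0) pt (fun _ => 1)) 0 :=
    HasFDerivAt.comp_hasDerivAt (f := fun t : ℝ => (fun _ : Fin 2 => (1:ℝ)/8 + t)) (0:ℝ) hd' hpath
  have hφ0 : φ 0 = Real.log 2 := by
    rw [← entFn_pt, ← hpt]
  have hbound : ∀ t : ℝ, |t| < 1/2000 → φ t ≤ Real.log 2 - |t| / 9 := by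
    intro t ht
    have hm : (fun _ : Fin 2 => (1:ℝ)/8 + t) ∈ feasible W0 := by
      refine nbhd_feasible ?_ ?_
      · rw [show (1:ℝ)/8 + t + (1/8 + t) - 1/4 = 2 * t by ring, abs_mul, abs_of_pos (by norm_num : (0:ℝ) < 2)]
        linarith
      · simp only [sub_self, abs_zero]; norm_num
    have := entFn_le hm
    rw [show (1:ℝ)/8 + t + (1/8 + t) - 1/4 = 2 * t by ring, abs_mul, abs_of_pos (by norm_num : (0:ℝ) < 2)] at this
    show entFn W0 _ ≤ _
    linarith
  have hmax : IsLocalMax φ 0 := by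
    have : ∀ᶠ t : ℝ in nhds 0, |t| < 1/2000 := by
      have := Metric.ball_mem_nhds (0:ℝ) (by norm_num : (0:ℝ) < 1/2000)
      filter_upwards [this] with t ht
      simpa [Metric.mem_ball, dist_zero_right] using ht
    filter_upwards [this] with t ht
    rw [hφ0]
    have := hbound t ht
    have := abs_nonneg t
    linarith
  have hz : fderiv ℝ (entFn W0) pt (fun _ => 1) = 0 := hmax.hasDerivAt_eq_zero hφd
  rw [hz] at hφd
  rw [hasDerivAt_iff_tendsto_slope_zero] at hφd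
  have hφd' : Filter.Tendsto (fun t : ℝ => t⁻¹ • (φ (0 + t) - φ 0)) (nhdsWithin 0 (Ioi 0)) (nhds 0) :=
    hφd.mono_left (nhdsWithin_mono _ (fun x hx => ne_of_gt hx))
  have hle : ∀ᶠ t : ℝ in nhdsWithin 0 (Ioi 0), t⁻¹ • (φ (0 + t) - φ 0) ≤ -(1/9) := by
    have h1 : Ioo (0:ℝ) (1/2000) ∈ nhdsWithin (0:ℝ) (Ioi 0) := Ioo_mem_nhdsGT (by norm_num)
    filter_upwards [h1] with t ht
    rw [zero_add, hφ0, smul_eq_mul]
    have := hbound t (by rw [abs_of_pos ht.1]; exact ht.2)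
    rw [abs_of_pos ht.1] at this
    rw [inv_mul_le_iff₀ ht.1]
    linarith
  have := le_of_tendsto hφd' hle
  norm_num at this

end Pool.Agent.X182.PD
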