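import Pool.Agent.X182.PD.B

open MeasureTheory Set

namespace Pool.Agent.X182.PD

lemma measurableSet_simplex (m : ℕ) : MeasurableSet (simplex m) := by
  have e : simplex m = (⋂ i, {x : Fin m → ℝ | x i ∈ Icc (0:ℝ) 1}) ∩
      ⋂ i, ⋂ j, ⋂ (_ : i < j), {x : Fin m → ℝ | x i < x j} := by
    ext x
    simp only [simplex, mem_ofPred_eq, mem_inter_iff, mem_iInter, StrictMono]
  rw [e]
  refine MeasurableSet.inter (MeasurableSet.iInter fun i => ?_)
    (MeasurableSet.iInter fun i => MeasurableSet.iInter fun j => MeasurableSet.iInter fun _ => ?_)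
  · exact (measurable_pi_apply i) measurableSet_Icc
  · exact measurableSet_lt (measurable_pi_apply i) (measurable_pi_apply j)

lemma simplex_succ (m : ℕ) (x : Fin (m+2) → ℝ) : x ∈ simplex (m+2) ↔
    (fun j : Fin (m+1) => x j.castSucc) ∈ simplex (m+1) ∧
      x (Fin.last (m+1)) ∈ Ioc (x (Fin.last m).castSucc) 1 := by
  constructor
  · rintro ⟨h1, h2⟩
    refine ⟨⟨fun i => h1 _, fun i j hij => h2 (by simpa using hij)⟩, h2 ?_, (h1 _).2⟩
    exact Fin.castSucc_lt_last _
  · rintro ⟨⟨h1, h2⟩, h3⟩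
    refine ⟨fun i => ?_, ?_⟩
    · rcases Fin.eq_castSucc_or_eq_last i with ⟨j, rfl⟩ | rfl
      · exact h1 j
      · exact ⟨(h1 (Fin.last m)).1.trans h3.1.le, h3.2⟩
    · rw [Fin.strictMono_iff_lt_succ]
      intro i
      rcases Fin.eq_castSucc_or_eq_last i with ⟨j, rfl⟩ | rfl
      · have : (j.castSucc.succ : Fin (m+2)) = (j.succ).castSucc := (Fin.castSucc_succ j).symm ▸ rfl
        rw [this]
        exact h2 (Fin.castSucc_lt_succ)
      · rw [Fin.succ_last]
        exact h3.1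

noncomputable def GS (m : ℕ) (Φ : (Fin (m+1) → ℝ) → ℝ) (d : ℝ → ℝ) (p : ℝ × (Fin (m+1) → ℝ)) : ℝ :=
  (simplex (m+1)).indicator Φ p.2 * (Ioc (p.2 (Fin.last m)) 1).indicator d p.1

lemma GS_meas (m : ℕ) {Φ : (Fin (m+1) → ℝ) → ℝ} {d : ℝ → ℝ} (hΦ : Measurable Φ) (hd : Measurable d) :
    Measurable (GS m Φ d) := by
  unfold GS
  have e1 : (fun p : ℝ × (Fin (m+1) → ℝ) => (Ioc (p.2 (Fin.last m)) 1).indicator d p.1) =
      {p : ℝ × (Fin (m+1) → ℝ) | p.2 (Fin.last m) < p.1 ∧ p.1 ≤ 1}.indicator (fun p => d p.1) := by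
    funext p
    simp only [indicator, mem_Ioc, mem_ofPred_eq]
  have m1 : Measurable (fun p : ℝ × (Fin (m+1) → ℝ) => p.2 (Fin.last m)) :=
    (measurable_pi_apply _).comp measurable_snd
  have k1 : Measurable (fun p : ℝ × (Fin (m+1) → ℝ) => (Ioc (p.2 (Fin.last m)) 1).indicator d p.1) := by
    rw [e1]
    exact (hd.comp measurable_fst).indicator
      ((measurableSet_lt m1 measurable_fst).inter (measurableSet_le measurable_fst measurable_const))
  exact ((hΦ.indicator (measurableSet_simplex _)).comp measurable_snd).mul k1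

lemma GS_int (m : ℕ) {Φ : (Fin (m+1) → ℝ) → ℝ} {d : ℝ → ℝ} (hΦ : Measurable Φ) {C : ℝ}
    (hC0 : 0 ≤ C) (hC : ∀ z ∈ simplex (m+1), |Φ z| ≤ C) (hd : Bd d) :
    Integrable (GS m Φ d) (volume.prod volume) := by
  obtain ⟨D, hD0, hD⟩ := hd.bd
  set K : Set (ℝ × (Fin (m+1) → ℝ)) := (Icc (0:ℝ) 1) ×ˢ (Icc (0 : Fin (m+1) → ℝ) 1) with hK
  have hKm : MeasurableSet K := measurableSet_Icc.prod measurableSet_Icc
  have hKf : (volume.prod volume) K < ⊤ := by
    rw [hK, Measure.prod_prod]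
    exact ENNReal.mul_lt_top measure_Icc_lt_top measure_Icc_lt_top
  have hint : Integrable (K.indicator (fun _ => C * D)) (volume.prod volume) := by
    rw [integrable_indicator_iff hKm]
    exact integrableOn_const hKf.ne
  refine hint.mono' (GS_meas m hΦ hd.meas).aestronglyMeasurable (Filter.Eventually.of_forall ?_)
  rintro ⟨t, z⟩
  by_cases h : z ∈ simplex (m+1) ∧ t ∈ Ioc (z (Fin.last m)) 1
  · obtain ⟨h1, h2⟩ := h
    have ht : t ∈ Icc (0:ℝ) 1 := ⟨(h1.1 _).1.trans h2.1.le, h2.2⟩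
    have hmem : ((t, z) : ℝ × (Fin (m+1) → ℝ)) ∈ K := ⟨ht, fun i => (h1.1 i).1, fun i => (h1.1 i).2⟩
    rw [indicator_of_mem hmem]
    simp only [GS]
    rw [indicator_of_mem h1, indicator_of_mem h2, Real.norm_eq_abs, abs_mul]
    exact mul_le_mul (hC _ h1) (hD _ ht) (abs_nonneg _) hC0
  · have hz : GS m Φ d (t, z) = 0 := by
      simp only [GS]
      by_cases h1 : z ∈ simplex (m+1)
      · have h2 : t ∉ Ioc (z (Fin.last m)) 1 := fun h2 => h ⟨h1, h2⟩
        rw [indicator_of_notMem h2]; ring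
      · rw [indicator_of_notMem h1]; ring
    rw [hz, norm_zero]
    exact indicator_nonneg (fun _ _ => by positivity) _

lemma GS_comp (m : ℕ) (Φ : (Fin (m+1) → ℝ) → ℝ) (d : ℝ → ℝ) (x : Fin (m+2) → ℝ) :
    GS m Φ d (MeasurableEquiv.piFinSuccAbove (fun _ : Fin (m+2) => ℝ) (Fin.last (m+1)) x) =
      (simplex (m+2)).indicator (fun x => Φ (fun j => x j.castSucc) * d (x (Fin.last (m+1)))) x := by
  have e1 : (MeasurableEquiv.piFinSuccAbove (fun _ : Fin (m+2) => ℝ) (Fin.last (m+1)) x).1 =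
      x (Fin.last (m+1)) := rfl
  have e2 : (MeasurableEquiv.piFinSuccAbove (fun _ : Fin (m+2) => ℝ) (Fin.last (m+1)) x).2 =
      fun j => x j.castSucc := by
    funext j
    show x ((Fin.last (m+1)).succAbove j) = x j.castSucc
    rw [Fin.succAbove_last]
  unfold GS
  rw [e1, e2]
  by_cases h : x ∈ simplex (m+2)
  · rw [indicator_of_mem h]
    obtain ⟨h1, h2⟩ := (simplex_succ m x).1 h
    rw [indicator_of_mem h1, indicator_of_mem h2]
  · rw [indicator_of_notMem h]
    by_cases h1 : (fun j : Fin (m+1) => x j.castSucc) ∈ simplex (m+1)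
    · have h2 : x (Fin.last (m+1)) ∉ Ioc (x (Fin.last m).castSucc) 1 :=
        fun h2 => h ((simplex_succ m x).2 ⟨h1, h2⟩)
      rw [indicator_of_notMem h2]; ring
    · rw [indicator_of_notMem h1]; ring

/-- Integrating out the last variable of the simplex. -/
lemma split (m : ℕ) {Φ : (Fin (m+1) → ℝ) → ℝ} {d : ℝ → ℝ} (hΦ : Measurable Φ) {C : ℝ}
    (hC0 : 0 ≤ C) (hC : ∀ z ∈ simplex (m+1), |Φ z| ≤ C) (hd : Bd d) :
    ∫ x in simplex (m+2), Φ (fun j => x j.castSucc) * d (x (Fin.last (m+1))) =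
      ∫ z in simplex (m+1), Φ z * ∫ t in Ioc (z (Fin.last m)) 1, d t := by
  rw [← integral_indicator (measurableSet_simplex _)]
  have mp := volume_preserving_piFinSuccAbove (fun _ : Fin (m+2) => ℝ) (Fin.last (m+1))
  have h0 := mp.integral_comp (MeasurableEquiv.measurableEmbedding _) (GS m Φ d)
  have h3 : ∫ p, GS m Φ d p ∂((volume : Measure ℝ).prod (volume : Measure (Fin (m+1) → ℝ))) =
      ∫ p : ℝ × (Fin (m+1) → ℝ), GS m Φ d p := rfl
  have h1 : ∫ x : Fin (m+2) → ℝ, (simplex (m+2)).indicator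
      (fun x => Φ (fun j => x j.castSucc) * d (x (Fin.last (m+1)))) x =
      ∫ p, GS m Φ d p ∂((volume : Measure ℝ).prod (volume : Measure (Fin (m+1) → ℝ))) := by
    rw [h3, ← h0]
    refine integral_congr_ae (Filter.Eventually.of_forall fun x => ?_)
    exact (GS_comp m Φ d x).symm
  rw [h1, integral_prod_symm _ (GS_int m hΦ hC0 hC hd), ← integral_indicator (measurableSet_simplex _)]
  refine integral_congr_ae (Filter.Eventually.of_forall fun z => ?_)
  show ∫ t : ℝ, GS m Φ d (t, z) = _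
  simp only [GS]
  rw [integral_const_mul, integral_indicator measurableSet_Ioc]
  by_cases hz : z ∈ simplex (m+1)
  · rw [indicator_of_mem hz, indicator_of_mem hz]
  · rw [indicator_of_notMem hz, indicator_of_notMem hz]; ring

lemma simplex1 (g : ℝ → ℝ) : ∫ x in simplex 1, g (x 0) = ∫ t in Icc (0:ℝ) 1, g t := by
  rw [← integral_indicator (measurableSet_simplex _), ← integral_indicator measurableSet_Icc]
  have mp := volume_preserving_funUnique (Fin 1) ℝ
  rw [← mp.integral_comp (MeasurableEquiv.measurableEmbedding _)]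
  refine integral_congr_ae (Filter.Eventually.of_forall fun x => ?_)
  have e1 : (MeasurableEquiv.funUnique (Fin 1) ℝ) x = x 0 := rfl
  simp only
  rw [e1]
  by_cases h : x 0 ∈ Icc (0:ℝ) 1
  · rw [indicator_of_mem h, indicator_of_mem]
    exact ⟨fun i => by rw [Subsingleton.elim i 0]; exact h, Subsingleton.strictMono _⟩
  · rw [indicator_of_notMem h, indicator_of_notMem]
    exact fun h' => h (h'.1 0)

lemma meas_tail {d : ℝ → ℝ} (hd : Measurable d) : Measurable (fun z : ℝ => ∫ t in Ioc z 1, d t) := by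
  have h : StronglyMeasurable (Function.uncurry (fun (z t : ℝ) => (Ioc z 1).indicator d t)) := by
    apply Measurable.stronglyMeasurable
    have e : (Function.uncurry (fun (z t : ℝ) => (Ioc z 1).indicator d t)) =
        {p : ℝ × ℝ | p.1 < p.2 ∧ p.2 ≤ 1}.indicator (fun p => d p.2) := by
      funext p
      simp only [Function.uncurry, indicator, mem_Ioc, mem_ofPred_eq]
    rw [e]
    exact (hd.comp measurable_snd).indicator
      ((measurableSet_lt measurable_fst measurable_snd).inter (measurableSet_le measurable_snd measurable_const))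
  have := (h.integral_prod_right (ν := volume)).measurable
  simpa only [integral_indicator measurableSet_Ioc] using this

lemma meas_head {d : ℝ → ℝ} (hd : Measurable d) : Measurable (fun z : ℝ => ∫ t in Ico 0 z, d t) := by
  have h : StronglyMeasurable (Function.uncurry (fun (z t : ℝ) => (Ico 0 z).indicator d t)) := by
    apply Measurable.stronglyMeasurable
    have e : (Function.uncurry (fun (z t : ℝ) => (Ico 0 z).indicator d t)) =
        {p : ℝ × ℝ | 0 ≤ p.2 ∧ p.2 < p.1}.indicator (fun p => d p.2) := by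
      funext p
      simp only [Function.uncurry, indicator, mem_Ico, mem_ofPred_eq]
    rw [e]
    exact (hd.comp measurable_snd).indicator
      ((measurableSet_le measurable_const measurable_snd).inter (measurableSet_lt measurable_snd measurable_fst))
  have := (h.integral_prod_right (ν := volume)).measurable
  simpa only [integral_indicator measurableSet_Ico] using this

/-- `F(y) = ∫_0^y f`. -/
noncomputable def FF (f : ℝ → ℝ) (y : ℝ) : ℝ := ∫ z in Ico 0 y, f z

/-- `Z(y) = ∫_y^1 (1 - f)`. -/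
noncomputable def ZZ (f : ℝ → ℝ) (y : ℝ) : ℝ := ∫ z in Ioc y 1, (1 - f z)

lemma FF_mem {f : ℝ → ℝ} (hf : Adm f) {y : ℝ} (hy : y ∈ Icc (0:ℝ) 1) : FF f y ∈ Icc (0:ℝ) 1 := by
  have hs : Ico 0 y ⊆ Icc (0:ℝ) 1 := fun z hz => ⟨hz.1, hz.2.le.trans hy.2⟩
  have h1 : ∫ z in Ico 0 y, f z ≤ ∫ z in Ico 0 y, (1:ℝ) :=
    setIntegral_mono_on (hf.bd.integrableOn.mono_set hs) (integrableOn_const (by simp))
      measurableSet_Ico (fun z hz => (hf.mem z (hs hz)).2)
  rw [int_Ico y 1 hy] at h1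
  exact ⟨setIntegral_nonneg measurableSet_Ico fun z hz => (hf.mem z (hs hz)).1, by
    unfold FF; linarith [hy.2]⟩

lemma ZZ_mem {f : ℝ → ℝ} (hf : Adm f) {y : ℝ} (hy : y ∈ Icc (0:ℝ) 1) : ZZ f y ∈ Icc (0:ℝ) 1 := by
  have hs : Ioc y 1 ⊆ Icc (0:ℝ) 1 := fun z hz => ⟨hy.1.trans hz.1.le, hz.2⟩
  have h1 : ∫ z in Ioc y 1, (1 - f z) ≤ ∫ z in Ioc y 1, (1:ℝ) :=
    setIntegral_mono_on (hf.bd'.integrableOn.mono_set hs) (integrableOn_const (by simp))
      measurableSet_Ioc (fun z hz => by linarith [(hf.mem z (hs hz)).1])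
  rw [int_Ioc y 1 hy] at h1
  exact ⟨setIntegral_nonneg measurableSet_Ioc fun z hz => by linarith [(hf.mem z (hs hz)).2], by
    unfold ZZ; linarith [hy.1]⟩

lemma FF_Bd {f : ℝ → ℝ} (hf : Adm f) : Bd (FF f) :=
  ⟨meas_head hf.meas, 1, zero_le_one, fun x hx => by
    rw [abs_of_nonneg (FF_mem hf hx).1]; exact (FF_mem hf hx).2⟩

lemma ZZ_Bd {f : ℝ → ℝ} (hf : Adm f) : Bd (ZZ f) :=
  ⟨meas_tail hf.bd'.meas, 1, zero_le_one, fun x hx => by
    rw [abs_of_nonneg (ZZ_mem hf hx).1]; exact (ZZ_mem hf hx).2⟩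

noncomputable def AA (f : ℝ → ℝ) : ℝ := ∫ x in Icc (0:ℝ) 1, f x * ZZ f x

lemma dens_1 (f : ℝ → ℝ) : dens [true] f = ∫ x in Icc (0:ℝ) 1, f x := by
  have h : dens [true] f = ((1).factorial : ℝ) * ∫ x in simplex 1, ∏ i : Fin 1, fac ([true].get i) (f (x i)) := rfl
  rw [h]
  simp only [Finset.univ_unique, Fin.default_eq_zero, Finset.prod_singleton, Nat.factorial, Nat.cast_one, one_mul]
  rw [← simplex1]
  simp [fac]

lemma dens_10 {f : ℝ → ℝ} (hf : Adm f) : dens [true, false] f = 2 * AA f := by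
  have h : dens [true, false] f = ((2).factorial : ℝ) *
      ∫ x in simplex 2, ∏ i : Fin 2, fac ([true, false].get i) (f (x i)) := rfl
  rw [h]
  have h2 := split 0 (Φ := fun z => f (z 0)) (d := fun t => 1 - f t) (hf.meas.comp (measurable_pi_apply 0))
    zero_le_one (fun z hz => by
      rw [abs_of_nonneg (hf.mem _ (hz.1 0)).1]; exact (hf.mem _ (hz.1 0)).2) hf.bd'
  have h3 : ∫ x in simplex 2, ∏ i : Fin 2, fac ([true, false].get i) (f (x i)) =
      ∫ x in simplex (0+2), f (x (0 : Fin 1).castSucc) * (1 - f (x (Fin.last (0+1)))) := by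
    refine integral_congr_ae (Filter.Eventually.of_forall fun x => ?_)
    simp only [Fin.prod_univ_two]
    rfl
  rw [h3, h2]
  have h4 := simplex1 (fun t => f t * ZZ f t)
  unfold AA
  rw [← h4]
  norm_num [Nat.factorial, ZZ]

lemma dens_1100 {f : ℝ → ℝ} (hf : Adm f) : dens [true, true, false, false] f =
    24 * ∫ y in Icc (0:ℝ) 1, f y * (FF f y * ∫ z in Ioc y 1, (1 - f z) * ZZ f z) := by
  have h : dens [true, true, false, false] f = ((4).factorial : ℝ) *
      ∫ x in simplex 4, ∏ i : Fin 4, fac ([true, true, false, false].get i) (f (x i)) := rfl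
  rw [h]
  have b1 : ∀ z ∈ simplex 3, |f (z 0) * f (z 1) * (1 - f (z 2))| ≤ 1 := by
    intro z hz
    have m0 := hf.mem _ (hz.1 0)
    have m1 := hf.mem _ (hz.1 1)
    have m2 := hf.mem _ (hz.1 2)
    rw [abs_mul, abs_mul, abs_of_nonneg m0.1, abs_of_nonneg m1.1, abs_of_nonneg (by linarith [m2.2])]
    calc f (z 0) * f (z 1) * (1 - f (z 2)) ≤ 1 * 1 * 1 := by
          refine mul_le_mul (mul_le_mul m0.2 m1.2 m1.1 zero_le_one) (by linarith [m2.1]) (by linarith [m2.2]) (by norm_num)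
      _ = 1 := by norm_num
  have h2 := split 2 (Φ := fun z => f (z 0) * f (z 1) * (1 - f (z 2))) (d := fun t => 1 - f t)
    (((hf.meas.comp (measurable_pi_apply 0)).mul (hf.meas.comp (measurable_pi_apply 1))).mul
      (measurable_const.sub (hf.meas.comp (measurable_pi_apply 2))))
    zero_le_one b1 hf.bd'
  have h3 : ∫ x in simplex 4, ∏ i : Fin 4, fac ([true, true, false, false].get i) (f (x i)) =
      ∫ x in simplex (2+2), (f (x (0 : Fin 3).castSucc) * f (x (1 : Fin 3).castSucc) *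
        (1 - f (x (2 : Fin 3).castSucc))) * (1 - f (x (Fin.last (2+1)))) := by
    refine integral_congr_ae (Filter.Eventually.of_forall fun x => ?_)
    simp only [Fin.prod_univ_four]
    rfl
  rw [h3, h2]
  have h4 : ∫ z in simplex (2+1), f (z 0) * f (z 1) * (1 - f (z 2)) * ∫ t in Ioc (z (Fin.last 2)) 1, (1 - f t) =
      T f f (fun t => (1 - f t) * ZZ f t) := by
    unfold T
    refine integral_congr_ae (Filter.Eventually.of_forall fun x => ?_)
    simp only [ZZ]
    rw [show (Fin.last 2) = (2 : Fin 3) from rfl]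
    ring
  rw [h4, T_eq hf.bd hf.bd (hf.bd'.mul (ZZ_Bd hf))]
  norm_num [Nat.factorial, FF]

end Pool.Agent.X182.PD
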