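import Pool.Agent.X182.PD.E

open MeasureTheory Set

namespace Pool.Agent.X182.PD

lemma Bd.intervalIntegrable {g : ℝ → ℝ} (hg : Bd g) {a b : ℝ} (ha : a ∈ Icc (0:ℝ) 1) (hb : b ∈ Icc (0:ℝ) 1) :
    IntervalIntegrable g volume a b := by
  have hs : uIcc a b ⊆ Icc (0:ℝ) 1 := by
    intro x hx
    rcases le_total a b with h | h
    · rw [uIcc_of_le h] at hx; exact ⟨ha.1.trans hx.1, hx.2.trans hb.2⟩
    · rw [uIcc_of_ge h] at hx; exact ⟨hb.1.trans hx.1, hx.2.trans ha.2⟩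
  exact (hg.integrableOn.mono_set hs).intervalIntegrable

/-- Chain rule for the primitive of a bounded measurable function. -/
lemma chain {g : ℝ → ℝ} {a : ℝ} (ha : a ∈ Icc (0:ℝ) 1) (hg : Bd g) {M K : ℝ}
    (hM : ∀ x ∈ Icc a 1, (∫ t in a..x, g t) ∈ Icc 0 M) {ψ ψ' : ℝ → ℝ}
    (hψ : ∀ u ∈ Icc 0 M, HasDerivAt ψ (ψ' u) u) (hK : ∀ u ∈ Icc 0 M, |ψ' u| ≤ K) :
    ∫ x in a..1, ψ' (∫ t in a..x, g t) * g x = ψ (∫ t in a..1, g t) - ψ 0 := by
  obtain ⟨C, hC0, hC⟩ := hg.bd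
  have h1 : (1:ℝ) ∈ Icc (0:ℝ) 1 := ⟨zero_le_one, le_rfl⟩
  have hgi : IntervalIntegrable g volume a 1 := hg.intervalIntegrable ha h1
  set F : ℝ → ℝ := fun x => ∫ t in a..x, g t with hF
  have hK0 : 0 ≤ K := (abs_nonneg _).trans (hK _ (hM a ⟨le_rfl, ha.2⟩))
  have hFlip : ∀ x ∈ Icc a 1, ∀ y ∈ Icc a 1, |F x - F y| ≤ C * |x - y| := by
    intro x hx y hy
    have hx' : x ∈ Icc (0:ℝ) 1 := ⟨ha.1.trans hx.1, hx.2⟩
    have hy' : y ∈ Icc (0:ℝ) 1 := ⟨ha.1.trans hy.1, hy.2⟩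
    have e : F x - F y = ∫ t in y..x, g t := by
      rw [hF]
      exact intervalIntegral.integral_interval_sub_left (hg.intervalIntegrable ha hx') (hg.intervalIntegrable ha hy')
    rw [e, ← Real.norm_eq_abs]
    refine intervalIntegral.norm_integral_le_of_norm_le_const fun t ht => ?_
    refine hC t ?_
    have ht' := uIoc_subset_uIcc ht
    rcases le_total y x with h | h
    · rw [uIcc_of_le h] at ht'; exact ⟨hy'.1.trans ht'.1, ht'.2.trans hx'.2⟩
    · rw [uIcc_of_ge h] at ht'; exact ⟨hx'.1.trans ht'.1, ht'.2.trans hy'.2⟩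
  have hlip : LipschitzOnWith (Real.toNNReal (K * C)) (fun x => ψ (F x)) (uIcc a 1) := by
    rw [uIcc_of_le ha.2]
    refine LipschitzOnWith.of_dist_le_mul fun x hx y hy => ?_
    rw [Real.coe_toNNReal _ (by positivity), Real.dist_eq, Real.dist_eq]
    have k1 := Convex.norm_image_sub_le_of_norm_hasDerivWithin_le (f := ψ) (f' := ψ') (C := K) (s := Icc 0 M)
      (fun u hu => (hψ u hu).hasDerivWithinAt) (fun u hu => hK u hu) (convex_Icc 0 M) (hM y hy) (hM x hx)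
    rw [Real.norm_eq_abs, Real.norm_eq_abs] at k1
    calc |ψ (F x) - ψ (F y)| ≤ K * |F x - F y| := k1
      _ ≤ K * (C * |x - y|) := mul_le_mul_of_nonneg_left (hFlip x hx y hy) hK0
      _ = K * C * |x - y| := by ring
  have hac := hlip.absolutelyContinuousOnInterval
  have hint := hac.integral_deriv_eq_sub
  have hF0 : F a = 0 := by rw [hF]; exact intervalIntegral.integral_same
  rw [hF0] at hint
  rw [← hint]
  refine intervalIntegral.integral_congr_ae ?_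
  filter_upwards [hgi.ae_hasDerivAt_integral] with x hx hx'
  have hxu : x ∈ uIcc a 1 := uIoc_subset_uIcc hx'
  have hd := hx hxu a left_mem_uIcc
  rw [uIcc_of_le ha.2] at hxu
  exact (((hψ _ (hM x hxu)).comp x hd).deriv).symm

lemma prim_mem {g : ℝ → ℝ} {a : ℝ} (ha : a ∈ Icc (0:ℝ) 1) (hg : Bd g)
    (hg0 : ∀ x ∈ Icc (0:ℝ) 1, g x ∈ Icc (0:ℝ) 1) :
    ∀ x ∈ Icc a 1, (∫ t in a..x, g t) ∈ Icc (0:ℝ) 1 := by
  intro x hx
  have hx' : x ∈ Icc (0:ℝ) 1 := ⟨ha.1.trans hx.1, hx.2⟩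
  constructor
  · exact intervalIntegral.integral_nonneg hx.1 fun t ht => (hg0 t ⟨ha.1.trans ht.1, ht.2.trans hx.2⟩).1
  · have : ∫ t in a..x, g t ≤ ∫ t in a..x, (1:ℝ) :=
      intervalIntegral.integral_mono_on hx.1 (hg.intervalIntegrable ha hx') intervalIntegrable_const
        fun t ht => (hg0 t ⟨ha.1.trans ht.1, ht.2.trans hx.2⟩).2
    rw [intervalIntegral.integral_const, smul_eq_mul, mul_one] at this
    linarith [ha.1, hx.2]

lemma FF_eq {f : ℝ → ℝ} {y : ℝ} (hy : y ∈ Icc (0:ℝ) 1) : FF f y = ∫ t in (0:ℝ)..y, f t := by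
  unfold FF
  rw [integral_Ico_eq_integral_Ioo, ← integral_Ioc_eq_integral_Ioo, ← intervalIntegral.integral_of_le hy.1]

lemma ZZ_eq {f : ℝ → ℝ} {y : ℝ} (hy : y ∈ Icc (0:ℝ) 1) : ZZ f y = ∫ t in y..1, (1 - f t) := by
  unfold ZZ
  rw [← intervalIntegral.integral_of_le hy.2]

/-- `∫_y^1 (1-f) Z = Z(y)^2/2`. -/
lemma int_ZZ {f : ℝ → ℝ} (hf : Adm f) {y : ℝ} (hy : y ∈ Icc (0:ℝ) 1) :
    ∫ z in Ioc y 1, (1 - f z) * ZZ f z = ZZ f y ^ 2 / 2 := by
  have h1 : (1:ℝ) ∈ Icc (0:ℝ) 1 := ⟨zero_le_one, le_rfl⟩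
  have hg := hf.bd'
  have hm := prim_mem hy hg (fun x hx => ⟨by linarith [(hf.mem x hx).2], by linarith [(hf.mem x hx).1]⟩)
  have hZ : ZZ f y ∈ Icc (0:ℝ) 1 := ZZ_mem hf hy
  have key := chain (a := y) hy hg hm (ψ := fun u => ZZ f y * u - u ^ 2 / 2) (ψ' := fun u => ZZ f y - u) (K := 2)
    (fun u _ => by
      have := ((hasDerivAt_id u).const_mul (ZZ f y)).sub (((hasDerivAt_id u).pow 2).div_const 2)
      refine this.congr_deriv ?_
      simp)
    (fun u hu => by rw [abs_le]; constructor <;> linarith [hu.1, hu.2, hZ.1, hZ.2])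
  rw [← ZZ_eq hy] at key
  rw [← intervalIntegral.integral_of_le hy.2]
  have e : ∫ x in y..1, (1 - f x) * ZZ f x = ∫ x in y..1, (ZZ f y - ∫ t in y..x, (1 - f t)) * (1 - f x) := by
    refine intervalIntegral.integral_congr fun x hx => ?_
    rw [uIcc_of_le hy.2] at hx
    have hx' : x ∈ Icc (0:ℝ) 1 := ⟨hy.1.trans hx.1, hx.2⟩
    have : ZZ f x = ZZ f y - ∫ t in y..x, (1 - f t) := by
      rw [ZZ_eq hx', ZZ_eq hy]
      rw [← intervalIntegral.integral_add_adjacent_intervals (hg.intervalIntegrable hy hx') (hg.intervalIntegrable hx' h1)]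
      ring
    rw [this]; ring
  rw [e, key]
  ring

noncomputable def BB (f : ℝ → ℝ) : ℝ := ∫ x in Icc (0:ℝ) 1, f x * (FF f x * ZZ f x ^ 2)

lemma dens_1100' {f : ℝ → ℝ} (hf : Adm f) : dens [true, true, false, false] f = 12 * BB f := by
  rw [dens_1100 hf]
  have : ∫ y in Icc (0:ℝ) 1, f y * (FF f y * ∫ z in Ioc y 1, (1 - f z) * ZZ f z) =
      ∫ y in Icc (0:ℝ) 1, (1/2) * (f y * (FF f y * ZZ f y ^ 2)) := by
    refine setIntegral_congr_fun measurableSet_Icc fun y hy => ?_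
    rw [int_ZZ hf hy]; ring
  rw [this, integral_const_mul]
  unfold BB
  ring

lemma int_log {f : ℝ → ℝ} (hf : Adm f) {ε : ℝ} (hε : 0 < ε) :
    ∫ x in Icc (0:ℝ) 1, f x / (FF f x + ε) = Real.log ((∫ x in Icc (0:ℝ) 1, f x) + ε) - Real.log ε := by
  have h0 : (0:ℝ) ∈ Icc (0:ℝ) 1 := ⟨le_rfl, zero_le_one⟩
  have hm := prim_mem h0 hf.bd hf.mem
  have key := chain (a := 0) h0 hf.bd hm (ψ := fun u => Real.log (u + ε)) (ψ' := fun u => (u + ε)⁻¹) (K := ε⁻¹)
    (fun u hu => by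
      have hne : u + ε ≠ 0 := by linarith [hu.1]
      have := ((hasDerivAt_id u).add_const ε).log hne
      simpa using this)
    (fun u hu => by
      rw [abs_of_pos (inv_pos.2 (by linarith [hu.1]))]
      exact inv_anti₀ hε (by linarith [hu.1]))
  simp only [zero_add] at key
  rw [integral_Icc_eq_integral_Ioc, integral_Icc_eq_integral_Ioc, ← intervalIntegral.integral_of_le zero_le_one,
    ← intervalIntegral.integral_of_le zero_le_one, ← key]
  refine intervalIntegral.integral_congr fun x hx => ?_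
  rw [uIcc_of_le zero_le_one] at hx
  rw [FF_eq hx]
  field_simp

end Pool.Agent.X182.PD
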