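import Pool.Agent.X182.PD.G

open MeasureTheory Set

namespace Pool.Agent.X182.PD

lemma AA_nonneg {f : ℝ → ℝ} (hf : Adm f) : 0 ≤ AA f :=
  setIntegral_nonneg measurableSet_Icc fun x hx => mul_nonneg (hf.mem x hx).1 (ZZ_mem hf hx).1

lemma BB_nonneg {f : ℝ → ℝ} (hf : Adm f) : 0 ≤ BB f :=
  setIntegral_nonneg measurableSet_Icc fun x hx =>
    mul_nonneg (hf.mem x hx).1 (mul_nonneg (FF_mem hf hx).1 (sq_nonneg _))

lemma Bd.div_FF {f : ℝ → ℝ} (hf : Adm f) {ε : ℝ} (hε : 0 < ε) : Bd (fun x => f x / (FF f x + ε)) := by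
  refine ⟨hf.meas.div ((FF_Bd hf).meas.add_const ε), ε⁻¹, (inv_pos.2 hε).le, fun x hx => ?_⟩
  have h1 := FF_mem hf hx
  have h2 := hf.mem x hx
  have h3 : 0 < FF f x + ε := by linarith [h1.1]
  rw [abs_of_nonneg (div_nonneg h2.1 h3.le), div_eq_mul_inv]
  calc f x * (FF f x + ε)⁻¹ ≤ 1 * ε⁻¹ :=
        mul_le_mul h2.2 (inv_anti₀ hε (by linarith [h1.1])) (inv_pos.2 h3).le zero_le_one
    _ = ε⁻¹ := one_mul _

lemma lower1 {f : ℝ → ℝ} (hf : Adm f) {κ ε : ℝ} (hκ : 0 < κ) (hε : 0 < ε) :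
    AA f ≤ κ * (BB f + ε * AA f) +
      (1 / (4 * κ)) * (Real.log ((∫ x in Icc (0:ℝ) 1, f x) + ε) - Real.log ε) := by
  have i1 : IntegrableOn (fun x => f x * ZZ f x) (Icc (0:ℝ) 1) := (hf.bd.mul (ZZ_Bd hf)).integrableOn
  have hZ2 : Bd (fun x => ZZ f x ^ 2) := by
    have := (ZZ_Bd hf).mul (ZZ_Bd hf)
    simp only [← pow_two] at this
    exact this
  have i2 : IntegrableOn (fun x => f x * (FF f x * ZZ f x ^ 2)) (Icc (0:ℝ) 1) :=
    (hf.bd.mul ((FF_Bd hf).mul hZ2)).integrableOn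
  have i3 : IntegrableOn (fun x => f x / (FF f x + ε)) (Icc (0:ℝ) 1) := (Bd.div_FF hf hε).integrableOn
  have j2 : IntegrableOn (fun x => κ * (f x * (FF f x * ZZ f x ^ 2))) (Icc (0:ℝ) 1) := i2.const_mul κ
  have j1 : IntegrableOn (fun x => κ * ε * (f x * ZZ f x)) (Icc (0:ℝ) 1) := i1.const_mul (κ * ε)
  have j3 : IntegrableOn (fun x => (1 / (4 * κ)) * (f x / (FF f x + ε))) (Icc (0:ℝ) 1) := i3.const_mul _
  have j12 : IntegrableOn (fun x => κ * (f x * (FF f x * ZZ f x ^ 2)) + κ * ε * (f x * ZZ f x)) (Icc (0:ℝ) 1) :=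
    j2.add j1
  have j123 : IntegrableOn (fun x => κ * (f x * (FF f x * ZZ f x ^ 2)) + κ * ε * (f x * ZZ f x) +
      (1 / (4 * κ)) * (f x / (FF f x + ε))) (Icc (0:ℝ) 1) := j12.add j3
  have hmono : AA f ≤ ∫ x in Icc (0:ℝ) 1, (κ * (f x * (FF f x * ZZ f x ^ 2)) + κ * ε * (f x * ZZ f x) +
      (1 / (4 * κ)) * (f x / (FF f x + ε))) := by
    refine setIntegral_mono_on i1 j123 measurableSet_Icc fun x hx => ?_
    have hF := FF_mem hf hx
    have hZ := ZZ_mem hf hx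
    have hfx := hf.mem x hx
    have hw : 0 < FF f x + ε := by linarith [hF.1]
    set w := FF f x + ε with hwdef
    have h1 : ZZ f x ≤ κ * w * ZZ f x ^ 2 + 1 / (4 * κ) * (1 / w) := by
      have h2 : κ * w * ZZ f x ^ 2 + 1 / (4 * κ) * (1 / w) - ZZ f x = (2 * κ * w * ZZ f x - 1)^2 / (4 * κ * w) := by
        field_simp
        ring
      have h3 : 0 ≤ (2 * κ * w * ZZ f x - 1)^2 / (4 * κ * w) := by positivity
      linarith
    have h4 : κ * w * ZZ f x ^ 2 ≤ κ * (FF f x * ZZ f x ^ 2) + κ * ε * ZZ f x := by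
      have h5 : ZZ f x ^ 2 ≤ ZZ f x := by nlinarith [hZ.1, hZ.2]
      have h6 : κ * ε * ZZ f x ^ 2 ≤ κ * ε * ZZ f x := mul_le_mul_of_nonneg_left h5 (by positivity)
      rw [hwdef]
      nlinarith
    have h7 : ZZ f x ≤ κ * (FF f x * ZZ f x ^ 2) + κ * ε * ZZ f x + 1 / (4 * κ) * (1 / w) := by linarith
    calc f x * ZZ f x ≤ f x * (κ * (FF f x * ZZ f x ^ 2) + κ * ε * ZZ f x + 1 / (4 * κ) * (1 / w)) :=
          mul_le_mul_of_nonneg_left h7 hfx.1
      _ = _ := by ring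
  rw [integral_add j12 j3, integral_add j2 j1, integral_const_mul, integral_const_mul, integral_const_mul,
    int_log hf hε] at hmono
  unfold AA BB at *
  linarith

/-- Quantitative lower bound: with `∫ f = 1/2`, `B ≥ A²/(2 log(1/A)) - A³`. -/
lemma lower2 {f : ℝ → ℝ} (hf : Adm f) (hp : ∫ x in Icc (0:ℝ) 1, f x = 1/2) (hA : 0 < AA f) (hA2 : AA f ≤ 1/2) :
    AA f ^ 2 / (2 * (-Real.log (AA f))) - AA f ^ 3 ≤ BB f := by
  set A := AA f with hAdef
  have hε : 0 < A ^ 2 := by positivity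
  set ℓ := Real.log (1/2 + A^2) - Real.log (A^2) with hℓ
  have hℓ0 : 0 < ℓ := sub_pos.2 (Real.log_lt_log hε (by linarith))
  have hℓ1 : ℓ ≤ 2 * (-Real.log A) := by
    have h1 : Real.log (1/2 + A^2) ≤ 0 := Real.log_nonpos (by positivity) (by nlinarith)
    have h2 : Real.log (A^2) = 2 * Real.log A := by rw [Real.log_pow]; norm_num
    rw [hℓ, h2]; linarith
  have hκ : 0 < ℓ / (2 * A) := by positivity
  have h := lower1 hf hκ hε
  rw [hp, ← hAdef, ← hℓ] at h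
  have h1 : 1 / (4 * (ℓ / (2 * A))) * ℓ = A / 2 := by
    field_simp
    norm_num
  rw [h1] at h
  have h2 : A / 2 ≤ ℓ / (2 * A) * (BB f + A^2 * A) := by linarith
  have h3 : A^2 / ℓ ≤ BB f + A^3 := by
    rw [div_le_iff₀ hℓ0]
    have := mul_le_mul_of_nonneg_left h2 (by positivity : 0 ≤ 2 * A)
    have e1 : 2 * A * (A / 2) = A^2 := by ring
    have e2 : 2 * A * (ℓ / (2 * A) * (BB f + A^2 * A)) = (BB f + A^3) * ℓ := by
      field_simp
    rw [e1, e2] at this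
    exact this
  have h4 : A^2 / (2 * (-Real.log A)) ≤ A^2 / ℓ :=
    div_le_div_of_nonneg_left (by positivity) hℓ0 hℓ1
  linarith

end Pool.Agent.X182.PD
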