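import Pool.Agent.X182.PD.H

open MeasureTheory Set

namespace Pool.Agent.X182.PD

noncomputable def lam (e : ℝ) : ℝ := e * (1/2 + e)

noncomputable def RR (e x : ℝ) : ℝ := Real.sqrt ((x - 1/2)^2 + 4 * lam e)

/-- The hyperbolic density. -/
noncomputable def hyp (e x : ℝ) : ℝ := (1/2) * (1 + (x - 1/2) / RR e x)

lemma lam_pos {e : ℝ} (he : 0 < e) : 0 < lam e := by unfold lam; positivity

lemma RR_pos {e : ℝ} (he : 0 < e) (x : ℝ) : 0 < RR e x :=
  Real.sqrt_pos.2 (by have := lam_pos he; positivity)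

lemma RR_sq {e : ℝ} (he : 0 < e) (x : ℝ) : RR e x ^ 2 = (x - 1/2)^2 + 4 * lam e :=
  Real.sq_sqrt (by have := lam_pos he; positivity)

lemma RR_deriv {e : ℝ} (he : 0 < e) (x : ℝ) : HasDerivAt (RR e) ((x - 1/2) / RR e x) x := by
  have h1 : HasDerivAt (fun x : ℝ => (x - 1/2)^2 + 4 * lam e) (2 * (x - 1/2)) x := by
    have := (((hasDerivAt_id x).sub_const (1/2)).pow 2).add_const (4 * lam e)
    refine this.congr_deriv ?_
    simp
  have hpos : (x - 1/2)^2 + 4 * lam e ≠ 0 := by have := lam_pos he; positivity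
  have h2 := h1.sqrt hpos
  refine h2.congr_deriv ?_
  have := (RR_pos he x).ne'
  show 2 * (x - 1/2) / (2 * RR e x) = _
  field_simp

lemma RR_end0 {e : ℝ} (he : 0 < e) : RR e 0 = 1/2 + 2 * e := by
  unfold RR
  rw [show ((0:ℝ) - 1/2)^2 + 4 * lam e = (1/2 + 2*e)^2 by unfold lam; ring]
  exact Real.sqrt_sq (by positivity)

lemma RR_end1 {e : ℝ} (he : 0 < e) : RR e 1 = 1/2 + 2 * e := by
  unfold RR
  rw [show ((1:ℝ) - 1/2)^2 + 4 * lam e = (1/2 + 2*e)^2 by unfold lam; ring]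
  exact Real.sqrt_sq (by positivity)

lemma RR_abs {e : ℝ} (he : 0 < e) (x : ℝ) : |x - 1/2| ≤ RR e x := by
  apply Real.abs_le_sqrt
  have := lam_pos he
  linarith

lemma hyp_cont {e : ℝ} (he : 0 < e) : Continuous (hyp e) := by
  unfold hyp
  have h : Continuous (RR e) := by
    unfold RR
    fun_prop
  exact continuous_const.mul (continuous_const.add ((continuous_id.sub continuous_const).div h
    (fun x => (RR_pos he x).ne')))

lemma hyp_adm {e : ℝ} (he : 0 < e) : Adm (hyp e) := by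
  refine ⟨(hyp_cont he).measurable, fun x _ => ?_⟩
  have h1 := RR_abs he x
  have h2 := RR_pos he x
  have h3 : |(x - 1/2) / RR e x| ≤ 1 := by
    rw [abs_div, abs_of_pos h2, div_le_one h2]; exact h1
  rw [abs_le] at h3
  unfold hyp
  constructor <;> linarith [h3.1, h3.2]

lemma hyp_FF {e : ℝ} (he : 0 < e) {y : ℝ} (hy : y ∈ Icc (0:ℝ) 1) :
    FF (hyp e) y = (1/2) * (y + RR e y - (1/2 + 2*e)) := by
  rw [FF_eq hy]
  have h : ∀ x ∈ uIcc 0 y, HasDerivAt (fun z => (1/2) * (z + RR e z)) (hyp e x) x := by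
    intro x _
    exact (((hasDerivAt_id x).add (RR_deriv he x)).const_mul (1/2)).congr_deriv rfl
  rw [intervalIntegral.integral_eq_sub_of_hasDerivAt h ((hyp_cont he).intervalIntegrable _ _), RR_end0 he]
  ring

lemma hyp_ZZ {e : ℝ} (he : 0 < e) {y : ℝ} (hy : y ∈ Icc (0:ℝ) 1) :
    ZZ (hyp e) y = (1/2) * (1 - y + RR e y - (1/2 + 2*e)) := by
  rw [ZZ_eq hy]
  have h : ∀ x ∈ uIcc y 1, HasDerivAt (fun z => (1/2) * (z - RR e z)) (1 - hyp e x) x := by
    intro x _
    exact (((hasDerivAt_id x).sub (RR_deriv he x)).const_mul (1/2)).congr_deriv (by unfold hyp; ring)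
  rw [intervalIntegral.integral_eq_sub_of_hasDerivAt h
    ((continuous_const.sub (hyp_cont he)).intervalIntegrable _ _), RR_end1 he]
  ring

lemma hyp_int {e : ℝ} (he : 0 < e) : ∫ x in Icc (0:ℝ) 1, hyp e x = 1/2 := by
  have h := hyp_FF he (y := 1) ⟨zero_le_one, le_rfl⟩
  rw [RR_end1 he] at h
  unfold FF at h
  rw [integral_Icc_eq_integral_Ico, h]
  ring

lemma hyp_prod {e : ℝ} (he : 0 < e) {y : ℝ} (hy : y ∈ Icc (0:ℝ) 1) :
    (FF (hyp e) y + e) * (ZZ (hyp e) y + e) = lam e := by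
  rw [hyp_FF he hy, hyp_ZZ he hy]
  have h := RR_sq he y
  nlinarith

noncomputable def LL (e : ℝ) : ℝ := Real.log (1/2 + e) - Real.log e

lemma hyp_AA {e : ℝ} (he : 0 < e) : AA (hyp e) = lam e * LL e - e / 2 := by
  have hf := hyp_adm he
  have e1 : AA (hyp e) = ∫ x in Icc (0:ℝ) 1, (lam e * (hyp e x / (FF (hyp e) x + e)) - e * hyp e x) := by
    unfold AA
    refine setIntegral_congr_fun measurableSet_Icc fun x hx => ?_
    have h1 := hyp_prod he hx
    have h2 : 0 < FF (hyp e) x + e := by linarith [(FF_mem hf hx).1]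
    have h3 : ZZ (hyp e) x = lam e / (FF (hyp e) x + e) - e := by
      rw [eq_sub_iff_add_eq, eq_div_iff h2.ne']; linarith
    show hyp e x * ZZ (hyp e) x = _
    rw [h3]; ring
  rw [e1, integral_sub ((Bd.div_FF hf he).integrableOn.const_mul _) (hf.bd.integrableOn.const_mul _),
    integral_const_mul, integral_const_mul, int_log hf he, hyp_int he]
  unfold LL
  ring

lemma hyp_BB {e : ℝ} (he : 0 < e) : BB (hyp e) ≤ lam e ^ 2 * LL e := by
  have hf := hyp_adm he
  have hZ2 : Bd (fun x => ZZ (hyp e) x ^ 2) := by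
    have := (ZZ_Bd hf).mul (ZZ_Bd hf)
    simp only [← pow_two] at this
    exact this
  have h : BB (hyp e) ≤ ∫ x in Icc (0:ℝ) 1, lam e ^ 2 * (hyp e x / (FF (hyp e) x + e)) := by
    unfold BB
    refine setIntegral_mono_on (hf.bd.mul ((FF_Bd hf).mul hZ2)).integrableOn
      ((Bd.div_FF hf he).integrableOn.const_mul _) measurableSet_Icc fun x hx => ?_
    have h1 := hyp_prod he hx
    have hF := FF_mem hf hx
    have hZ := ZZ_mem hf hx
    have h2 : 0 < FF (hyp e) x + e := by linarith [hF.1]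
    have h3 : ZZ (hyp e) x ≤ lam e / (FF (hyp e) x + e) := by
      rw [le_div_iff₀ h2]; nlinarith
    have h4 : ZZ (hyp e) x ^ 2 ≤ (lam e / (FF (hyp e) x + e))^2 := pow_le_pow_left₀ hZ.1 h3 2
    have h5 : FF (hyp e) x * ZZ (hyp e) x ^ 2 ≤ (FF (hyp e) x + e) * (lam e / (FF (hyp e) x + e))^2 :=
      mul_le_mul (by linarith) h4 (sq_nonneg _) h2.le
    have h6 : (FF (hyp e) x + e) * (lam e / (FF (hyp e) x + e))^2 = lam e ^ 2 / (FF (hyp e) x + e) := by
      field_simp
    rw [h6] at h5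
    calc hyp e x * (FF (hyp e) x * ZZ (hyp e) x ^ 2) ≤ hyp e x * (lam e ^ 2 / (FF (hyp e) x + e)) :=
          mul_le_mul_of_nonneg_left h5 (hf.mem x hx).1
      _ = _ := by ring
  rw [integral_const_mul, int_log hf he, hyp_int he] at h
  exact h

end Pool.Agent.X182.PD
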