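import Pool.Agent.X182.PD.I

open MeasureTheory Set Filter Topology

namespace Pool.Agent.X182.PD

/-- A subset of `ℝ^k` is semi-algebraic if it is a finite union of sets
`{x : p(x) = 0, q_1(x) > 0, ..., q_r(x) > 0}` with real polynomials `p, q_j`. -/
def IsSemialgebraic {k : ℕ} (S : Set (Fin k → ℝ)) : Prop :=
  ∃ L : List (MvPolynomial (Fin k) ℝ × List (MvPolynomial (Fin k) ℝ)),
    S = {x | ∃ c ∈ L, MvPolynomial.eval x c.1 = 0 ∧ ∀ q ∈ c.2, 0 < MvPolynomial.eval x q}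

lemma ratio_tendsto {l : Filter ℝ} {a y : ℝ → ℝ} (ha : Tendsto a l (𝓝 0)) (ha0 : ∀ᶠ e in l, 0 < a e)
    (hy0 : ∀ᶠ e in l, 0 < y e) (hy : Tendsto y l (𝓝 0))
    (hay : ∀ N : ℕ, Tendsto (fun e => a e / y e ^ N) l (𝓝 0)) {s t s' t' : ℕ}
    (h : s < s' ∨ (s = s' ∧ t < t')) :
    Tendsto (fun e => a e ^ s' * y e ^ t' / (a e ^ s * y e ^ t)) l (𝓝 0) := by
  rcases h with h | ⟨rfl, h⟩
  · obtain ⟨k, rfl⟩ := Nat.exists_eq_add_of_lt h
    have h1 := ((ha.pow k).mul (hy.pow t')).mul (hay t)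
    rw [mul_zero] at h1
    refine h1.congr' ?_
    filter_upwards [ha0, hy0] with e h2 h3
    field_simp
    ring
  · obtain ⟨k, rfl⟩ := Nat.exists_eq_add_of_lt h
    have h1 := hy.pow (k+1)
    rw [zero_pow (Nat.succ_ne_zero k)] at h1
    refine h1.congr' ?_
    filter_upwards [ha0, hy0] with e h2 h3
    field_simp
    ring

lemma asym {l : Filter ℝ} {a y : ℝ → ℝ} (ha : Tendsto a l (𝓝 0)) (ha0 : ∀ᶠ e in l, 0 < a e)
    (hy0 : ∀ᶠ e in l, 0 < y e) (hy : Tendsto y l (𝓝 0))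
    (hay : ∀ N : ℕ, Tendsto (fun e => a e / y e ^ N) l (𝓝 0))
    (P : MvPolynomial (Fin 2) ℝ) (hP : P ≠ 0) :
    ∀ᶠ e in l, MvPolynomial.eval ![a e, a e ^ 2 * y e] P ≠ 0 := by
  classical
  have hne : P.support.Nonempty := MvPolynomial.support_nonempty.2 hP
  obtain ⟨d0, hd0, hmin⟩ := Finset.exists_min_image P.support
    (fun d => toLex (d 0 + 2 * d 1, d 1)) hne
  have hlim : Tendsto (fun e => ∑ d ∈ P.support, MvPolynomial.coeff d P *
      (a e ^ (d 0 + 2 * d 1) * y e ^ (d 1) / (a e ^ (d0 0 + 2 * d0 1) * y e ^ (d0 1)))) l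
      (𝓝 (∑ d ∈ P.support, MvPolynomial.coeff d P * (if d = d0 then 1 else 0))) := by
    refine tendsto_finsetSum _ fun d hd => Tendsto.const_mul _ ?_
    by_cases hdd : d = d0
    · rw [if_pos hdd, hdd]
      refine tendsto_const_nhds.congr' ?_
      filter_upwards [ha0, hy0] with e h2 h3
      rw [div_self]
      positivity
    · rw [if_neg hdd]
      apply ratio_tendsto ha ha0 hy0 hy hay
      have h1 := hmin d hd
      rw [Prod.Lex.toLex_le_toLex] at h1
      rcases h1 with h1 | ⟨h1, h2⟩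
      · exact Or.inl h1
      · refine Or.inr ⟨h1, lt_of_le_of_ne h2 fun h3 => hdd ?_⟩
        simp only at h1 h3
        ext i
        fin_cases i
        · simp only [Fin.zero_eta]; omega
        · exact h3.symm
  have hsum : (∑ d ∈ P.support, MvPolynomial.coeff d P * (if d = d0 then (1:ℝ) else 0)) =
      MvPolynomial.coeff d0 P := by
    simp only [mul_ite, mul_one, mul_zero, Finset.sum_ite_eq', hd0, if_true]
  rw [hsum] at hlim
  have hc : MvPolynomial.coeff d0 P ≠ 0 := MvPolynomial.mem_support_iff.1 hd0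
  filter_upwards [hlim.eventually_ne hc, ha0, hy0] with e h1 h2 h3 h4
  apply h1
  rw [MvPolynomial.eval_eq'] at h4
  have h5 : ∑ d ∈ P.support, MvPolynomial.coeff d P *
      (a e ^ (d 0 + 2 * d 1) * y e ^ (d 1) / (a e ^ (d0 0 + 2 * d0 1) * y e ^ (d0 1))) =
      (∑ d ∈ P.support, MvPolynomial.coeff d P * ∏ i, ![a e, a e ^ 2 * y e] i ^ d i) /
        (a e ^ (d0 0 + 2 * d0 1) * y e ^ (d0 1)) := by
    rw [Finset.sum_div]
    refine Finset.sum_congr rfl fun d _ => ?_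
    have key : ∏ i, ![a e, a e ^ 2 * y e] i ^ d i = a e ^ (d 0 + 2 * d 1) * y e ^ (d 1) := by
      simp only [Fin.prod_univ_two, Matrix.cons_val_zero, Matrix.cons_val_one]
      rw [mul_pow, ← pow_mul]
      ring
    rw [key]
    ring
  rw [h5, h4, zero_div]

/-- membership in a semi-algebraic set along a curve is locally constant where no defining
polynomial changes sign -/
lemma locally_const {k : ℕ} (L : List (MvPolynomial (Fin k) ℝ × List (MvPolynomial (Fin k) ℝ)))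
    (γ : ℝ → (Fin k → ℝ)) (hγ : Continuous γ) (B : ℝ)
    (h : ∀ c ∈ L, ∀ q, (q = c.1 ∨ q ∈ c.2) →
      (∀ b, MvPolynomial.eval (γ b) q = 0) ∨ MvPolynomial.eval (γ B) q ≠ 0) :
    ∀ᶠ b in 𝓝 B, ((∃ c ∈ L, MvPolynomial.eval (γ b) c.1 = 0 ∧ ∀ q ∈ c.2, 0 < MvPolynomial.eval (γ b) q) ↔
      (∃ c ∈ L, MvPolynomial.eval (γ B) c.1 = 0 ∧ ∀ q ∈ c.2, 0 < MvPolynomial.eval (γ B) q)) := by
  have hcont : ∀ q : MvPolynomial (Fin k) ℝ, Continuous (fun b => MvPolynomial.eval (γ b) q) :=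
    fun q => (MvPolynomial.continuous_eval q).comp hγ
  have h1 : ∀ q : MvPolynomial (Fin k) ℝ,
      ((∀ b, MvPolynomial.eval (γ b) q = 0) ∨ MvPolynomial.eval (γ B) q ≠ 0) →
      ∀ᶠ b in 𝓝 B, ((MvPolynomial.eval (γ b) q = 0 ↔ MvPolynomial.eval (γ B) q = 0) ∧
        (0 < MvPolynomial.eval (γ b) q ↔ 0 < MvPolynomial.eval (γ B) q)) := by
    rintro q (hq | hq)
    · filter_upwards with b
      rw [hq b, hq B]; simp
    · rcases lt_or_gt_of_ne hq with hlt | hgt
      · filter_upwards [(hcont q).continuousAt.eventually_lt continuousAt_const hlt] with b hb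
        exact ⟨iff_of_false hb.ne hlt.ne, iff_of_false hb.not_gt hlt.not_gt⟩
      · filter_upwards [continuousAt_const.eventually_lt (hcont q).continuousAt hgt] with b hb
        exact ⟨iff_of_false hb.ne' hgt.ne', iff_of_true hb hgt⟩
  have h2 : ∀ᶠ b in 𝓝 B, ∀ c ∈ L, ((MvPolynomial.eval (γ b) c.1 = 0 ∧ ∀ q ∈ c.2, 0 < MvPolynomial.eval (γ b) q) ↔
      (MvPolynomial.eval (γ B) c.1 = 0 ∧ ∀ q ∈ c.2, 0 < MvPolynomial.eval (γ B) q)) := by
    have hfin : {c | c ∈ L}.Finite := L.finite_toSet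
    refine (Filter.eventually_all_finite hfin).2 fun c hc => ?_
    have hfin2 : {q | q ∈ c.2}.Finite := c.2.finite_toSet
    have h3 : ∀ᶠ b in 𝓝 B, ∀ q ∈ {q | q ∈ c.2}, ((MvPolynomial.eval (γ b) q = 0 ↔ MvPolynomial.eval (γ B) q = 0) ∧
        (0 < MvPolynomial.eval (γ b) q ↔ 0 < MvPolynomial.eval (γ B) q)) :=
      (Filter.eventually_all_finite hfin2).2 fun q hq => h1 q (h c hc q (Or.inr hq))
    filter_upwards [h3, h1 c.1 (h c hc c.1 (Or.inl rfl))] with b hb1 hb2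
    rw [hb2.1]
    refine and_congr_right fun _ => forall_congr' fun q => forall_congr' fun hq => (hb1 q hq).2
  filter_upwards [h2] with b hb
  exact exists_congr fun c => ⟨fun ⟨hc, h3⟩ => ⟨hc, (hb c hc).1 h3⟩, fun ⟨hc, h3⟩ => ⟨hc, (hb c hc).2 h3⟩⟩

/-- the list of words `1, 10, 1100`. -/
def W1 : Fin 3 → List Bool := ![[true], [true, false], [true, true, false, false]]

def SA (A : ℝ) : Set ℝ := {B | ∃ f, Adm f ∧ ∫ x in Icc (0:ℝ) 1, f x = 1/2 ∧ AA f = A ∧ BB f = B}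

noncomputable def gam (A B : ℝ) : Fin 3 → ℝ := ![1/2, 2 * A, 12 * B]

lemma gam_mem (A B : ℝ) : gam A B ∈ feasible W1 ↔ B ∈ SA A := by
  constructor
  · rintro ⟨f, hf, h⟩
    have h0 : dens [true] f = 1/2 := h 0
    have h1 : dens [true, false] f = 2 * A := h 1
    have h2 : dens [true, true, false, false] f = 12 * B := h 2
    rw [dens_1] at h0
    rw [dens_10 hf] at h1
    rw [dens_1100' hf] at h2
    exact ⟨f, hf, h0, by linarith, by linarith⟩
  · rintro ⟨f, hf, h0, h1, h2⟩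
    refine ⟨f, hf, fun i => ?_⟩
    fin_cases i
    · show dens [true] f = 1/2
      rw [dens_1, h0]
    · show dens [true, false] f = 2 * A
      rw [dens_10 hf, h1]
    · show dens [true, true, false, false] f = 12 * B
      rw [dens_1100' hf, h2]

end Pool.Agent.X182.PD
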