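import Pool.Agent.X182.PD.J

open MeasureTheory Set Filter Topology

namespace Pool.Agent.X182.PD

/-- the abscissa -/
noncomputable def Ae (e : ℝ) : ℝ := lam e * LL e - e / 2

/-- the minimal `B` -/
noncomputable def Bs (e : ℝ) : ℝ := sInf (SA (Ae e))

noncomputable def Ye (e : ℝ) : ℝ := Bs e / Ae e ^ 2

lemma tend_id : Tendsto (fun e : ℝ => e) (𝓝[>] 0) (𝓝 0) := tendsto_nhdsWithin_of_tendsto_nhds tendsto_id

lemma ev_pos : ∀ᶠ e : ℝ in 𝓝[>] 0, 0 < e := self_mem_nhdsWithin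

lemma LL_tend : Tendsto LL (𝓝[>] 0) atTop := by
  have h1 : Tendsto (fun e : ℝ => Real.log (1/2 + e)) (𝓝[>] 0) (𝓝 (Real.log (1/2 + 0))) := by
    refine (ContinuousAt.tendsto ?_).comp (tendsto_const_nhds.add tend_id)
    exact Real.continuousAt_log (by norm_num)
  have h2 : Tendsto (fun e : ℝ => -Real.log e) (𝓝[>] 0) atTop :=
    tendsto_neg_atBot_atTop.comp Real.tendsto_log_nhdsGT_zero
  have h3 := h1.add_atTop h2
  exact h3.congr fun e => by unfold LL; ring

lemma lamLL_tend : Tendsto (fun e => lam e * LL e) (𝓝[>] 0) (𝓝 0) := by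
  have h1 : Tendsto (fun e : ℝ => Real.log (1/2 + e)) (𝓝[>] 0) (𝓝 (Real.log (1/2 + 0))) := by
    refine (ContinuousAt.tendsto ?_).comp (tendsto_const_nhds.add tend_id)
    exact Real.continuousAt_log (by norm_num)
  have h2 : Tendsto (fun e : ℝ => e * Real.log e) (𝓝[>] 0) (𝓝 (0 * Real.log 0)) :=
    (Real.continuous_mul_log.tendsto 0).comp tend_id
  have h3 := ((tendsto_const_nhds (x := (1:ℝ)/2)).add tend_id).mul ((tend_id.mul h1).sub h2)
  simp only [zero_mul, sub_zero, mul_zero] at h3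
  exact h3.congr fun e => by unfold lam LL; ring

lemma Ae_tend : Tendsto Ae (𝓝[>] 0) (𝓝 0) := by
  have h := lamLL_tend.sub (tend_id.div_const 2)
  have h2 : Tendsto (fun e => lam e * LL e - e / 2) (𝓝[>] 0) (𝓝 0) := by simpa using h
  exact h2

lemma lam_ge (e : ℝ) : e / 2 ≤ lam e := by
  unfold lam; nlinarith [sq_nonneg e]

lemma Ae_ge {e : ℝ} : lam e * (LL e - 1) ≤ Ae e := by
  unfold Ae; linarith [lam_ge e]

lemma Ae_pos : ∀ᶠ e in 𝓝[>] 0, 0 < Ae e := by
  filter_upwards [ev_pos, LL_tend.eventually_ge_atTop 2] with e he h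
  have := lam_pos he
  have h1 : 0 < lam e * (LL e - 1) := mul_pos this (by linarith)
  linarith [Ae_ge (e := e)]

lemma SA_mem {e : ℝ} (he : 0 < e) : BB (hyp e) ∈ SA (Ae e) :=
  ⟨hyp e, hyp_adm he, hyp_int he, hyp_AA he, rfl⟩

lemma SA_bdd (A : ℝ) : BddBelow (SA A) := ⟨0, by rintro B ⟨f, hf, _, _, rfl⟩; exact BB_nonneg hf⟩

lemma Bs_le {e : ℝ} (he : 0 < e) : Bs e ≤ lam e ^ 2 * LL e :=
  (csInf_le (SA_bdd _) (SA_mem he)).trans (hyp_BB he)

lemma Bs_ge {e : ℝ} (he : 0 < e) (hA : 0 < Ae e) (hA2 : Ae e ≤ 1/2) :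
    Ae e ^ 2 / (2 * (-Real.log (Ae e))) - Ae e ^ 3 ≤ Bs e := by
  refine le_csInf ⟨_, SA_mem he⟩ ?_
  rintro B ⟨f, hf, h1, h2, rfl⟩
  rw [← h2] at hA hA2 ⊢
  exact lower2 hf h1 hA hA2

lemma AlogA : Tendsto (fun e => Ae e * (-Real.log (Ae e))) (𝓝[>] 0) (𝓝 0) := by
  have h := (Real.continuous_mul_log.tendsto 0).comp Ae_tend
  have h2 := h.neg
  simp only [zero_mul, neg_zero] at h2
  exact h2.congr fun e => by simp only [Function.comp]; ring

lemma logA_tend : Tendsto (fun e => -Real.log (Ae e)) (𝓝[>] 0) atTop := by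
  have h1 : Tendsto Ae (𝓝[>] 0) (𝓝[>] 0) := tendsto_nhdsWithin_iff.2 ⟨Ae_tend, Ae_pos⟩
  exact tendsto_neg_atBot_atTop.comp (Real.tendsto_log_nhdsGT_zero.comp h1)

lemma Ye_ge : ∀ᶠ e in 𝓝[>] 0, (4 * (-Real.log (Ae e)))⁻¹ ≤ Ye e := by
  filter_upwards [ev_pos, Ae_pos, Ae_tend.eventually_le_const (by norm_num : (0:ℝ) < 1/2),
    AlogA.eventually_le_const (by norm_num : (0:ℝ) < 1/4), logA_tend.eventually_gt_atTop 0] with e he h1 h2 h3 h4
  have h5 := Bs_ge he h1 h2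
  unfold Ye
  rw [le_div_iff₀ (by positivity)]
  refine le_trans ?_ h5
  set A := Ae e with hA
  set t := -Real.log A with ht
  have h6 : A ^ 2 / (2 * t) - A ^ 3 - (4 * t)⁻¹ * A^2 = A^2 / (4 * t) * (1 - 4 * (A * t)) := by
    field_simp
    ring
  have h7 : 0 ≤ A^2 / (4 * t) * (1 - 4 * (A * t)) := mul_nonneg (by positivity) (by linarith)
  linarith

lemma Ye_pos : ∀ᶠ e in 𝓝[>] 0, 0 < Ye e := by
  filter_upwards [Ye_ge, logA_tend.eventually_gt_atTop 0] with e h1 h2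
  exact lt_of_lt_of_le (by positivity) h1

lemma Ye_tend : Tendsto Ye (𝓝[>] 0) (𝓝 0) := by
  have h1 : Tendsto (fun e => 4 * (LL e)⁻¹) (𝓝[>] 0) (𝓝 0) := by
    have := (tendsto_inv_atTop_zero.comp LL_tend).const_mul 4
    simpa using this
  refine squeeze_zero' (Ye_pos.mono fun e h => h.le) ?_ h1
  filter_upwards [ev_pos, Ae_pos, LL_tend.eventually_ge_atTop 2] with e he hA hL
  have hlam := lam_pos he
  have h2 := Bs_le he
  have h3 := Ae_ge (e := e)
  have h4 : lam e * (LL e / 2) ≤ Ae e := by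
    refine le_trans (mul_le_mul_of_nonneg_left (by linarith) hlam.le) h3
  have h5 : (lam e * (LL e / 2))^2 ≤ Ae e ^ 2 := pow_le_pow_left₀ (by positivity) h4 2
  unfold Ye
  rw [div_le_iff₀ (by positivity)]
  refine h2.trans ?_
  have h6 : lam e ^ 2 * LL e = 4 * (LL e)⁻¹ * (lam e * (LL e / 2))^2 := by
    have : LL e ≠ 0 := by linarith
    field_simp
    norm_num
  rw [h6]
  exact mul_le_mul_of_nonneg_left h5 (by positivity)

lemma Ae_div (N : ℕ) : Tendsto (fun e => Ae e / Ye e ^ N) (𝓝[>] 0) (𝓝 0) := by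
  have h1 : Tendsto (fun e => 4 ^ N * ((-Real.log (Ae e)) ^ N * Real.exp (-(-Real.log (Ae e))))) (𝓝[>] 0) (𝓝 0) := by
    have := ((Real.tendsto_pow_mul_exp_neg_atTop_nhds_zero N).comp logA_tend).const_mul (4 ^ N)
    simpa using this
  refine squeeze_zero' ?_ ?_ h1
  · filter_upwards [Ae_pos, Ye_pos] with e h2 h3
    positivity
  · filter_upwards [Ae_pos, Ye_pos, Ye_ge, logA_tend.eventually_gt_atTop 0] with e h2 h3 h4 h5
    rw [neg_neg, Real.exp_log h2, div_le_iff₀ (by positivity)]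
    set t := -Real.log (Ae e) with ht
    have h6 : 1 ≤ 4 * t * Ye e := by
      have := mul_le_mul_of_nonneg_left h4 (by positivity : 0 ≤ 4 * t)
      rwa [mul_inv_cancel₀ (by positivity)] at this
    have h7 : 1 ≤ (4 * t * Ye e) ^ N := one_le_pow₀ h6
    calc Ae e = Ae e * 1 := (mul_one _).symm
      _ ≤ Ae e * (4 * t * Ye e) ^ N := mul_le_mul_of_nonneg_left h7 h2.le
      _ = 4 ^ N * (t ^ N * Ae e) * Ye e ^ N := by rw [mul_pow, mul_pow]; ring

/-- substitution of the slice into a polynomial -/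
noncomputable def sub3 (p : MvPolynomial (Fin 3) ℝ) : MvPolynomial (Fin 2) ℝ :=
  MvPolynomial.bind₁ ![MvPolynomial.C (1/2), MvPolynomial.C 2 * MvPolynomial.X 0,
    MvPolynomial.C 12 * MvPolynomial.X 1] p

lemma eval_sub3 (p : MvPolynomial (Fin 3) ℝ) (A B : ℝ) :
    MvPolynomial.eval ![A, B] (sub3 p) = MvPolynomial.eval (gam A B) p := by
  unfold sub3 gam
  rw [MvPolynomial.eval, MvPolynomial.eval, MvPolynomial.eval₂Hom_bind₁]
  congr 2
  funext i
  fin_cases i <;> simp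

theorem not_semialg : ¬ IsSemialgebraic (feasible W1) := by
  rintro ⟨L, hL⟩
  have hev : ∀ p : MvPolynomial (Fin 3) ℝ, ∀ᶠ e in 𝓝[>] 0,
      (∀ b, MvPolynomial.eval (gam (Ae e) b) p = 0) ∨ MvPolynomial.eval (gam (Ae e) (Bs e)) p ≠ 0 := by
    intro p
    by_cases hp : sub3 p = 0
    · filter_upwards with e
      left
      intro b
      rw [← eval_sub3, hp, map_zero]
    · filter_upwards [asym Ae_tend Ae_pos Ye_pos Ye_tend Ae_div (sub3 p) hp, Ae_pos] with e h1 h2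
      right
      have h3 : Ae e ^ 2 * Ye e = Bs e := by
        unfold Ye; field_simp
      rw [h3, eval_sub3] at h1
      exact h1
  have hall : ∀ᶠ e in 𝓝[>] 0, ∀ c ∈ L, ∀ q, (q = c.1 ∨ q ∈ c.2) →
      (∀ b, MvPolynomial.eval (gam (Ae e) b) q = 0) ∨ MvPolynomial.eval (gam (Ae e) (Bs e)) q ≠ 0 := by
    refine (Filter.eventually_all_finite (L.finite_toSet)).2 fun c hc => ?_
    have h3 : ∀ᶠ e in 𝓝[>] (0:ℝ), ∀ q ∈ {q | q ∈ c.2}, (∀ b, MvPolynomial.eval (gam (Ae e) b) q = 0) ∨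
        MvPolynomial.eval (gam (Ae e) (Bs e)) q ≠ 0 :=
      (Filter.eventually_all_finite (c.2.finite_toSet)).2 fun q _ => hev q
    filter_upwards [h3, hev c.1] with e h4 h5 q hq
    rcases hq with rfl | hq
    · exact h5
    · exact h4 q hq
  obtain ⟨e, he1, he2⟩ := (hall.and ev_pos).exists
  have hcont : Continuous (gam (Ae e)) := by
    unfold gam
    refine continuous_pi fun i => ?_
    fin_cases i
    · exact continuous_const
    · exact continuous_const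
    · exact continuous_const.mul continuous_id
  have hloc := locally_const L (gam (Ae e)) hcont (Bs e) he1
  have hmem : ∀ b, (∃ c ∈ L, MvPolynomial.eval (gam (Ae e) b) c.1 = 0 ∧
      ∀ q ∈ c.2, 0 < MvPolynomial.eval (gam (Ae e) b) q) ↔ b ∈ SA (Ae e) := by
    intro b
    rw [← gam_mem, hL]
    rfl
  simp only [hmem] at hloc
  obtain ⟨η, hη, hball⟩ := Metric.eventually_nhds_iff.1 hloc
  by_cases hB : Bs e ∈ SA (Ae e)
  · have h1 : Bs e - η / 2 ∈ SA (Ae e) := by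
      refine (hball ?_).2 hB
      rw [Real.dist_eq, show Bs e - η/2 - Bs e = -(η/2) by ring, abs_neg, abs_of_pos (by linarith)]
      linarith
    have h2 := csInf_le (SA_bdd _) h1
    unfold Bs at h2
    linarith
  · obtain ⟨b, hb1, hb2⟩ := exists_lt_of_csInf_lt (s := SA (Ae e)) ⟨_, SA_mem he2⟩ (b := Bs e + η)
      (by unfold Bs; linarith)
    have h3 : Bs e ≤ b := csInf_le (SA_bdd _) hb1
    refine hB ((hball ?_).1 hb1)
    rw [Real.dist_eq, abs_of_nonneg (by linarith)]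
    linarith

end Pool.Agent.X182.PD
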